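import Pool.Agent.Zk96.HSel.Tv

/-!
A coloured Tverberg theorem.
-/

set_option autoImplicit false

namespace Pool.Agent.Zk96.HSel

open Set Filter Topology
open scoped BigOperators
open Pool.Agent.Helper954.Hopf.Dold (VV JK sh)

/-- extension of a partial system of distinct representatives -/
theorem exists_inj {α β : Type} [Fintype α] [Fintype β] [DecidableEq β] (S : α → Finset β)
    (h1 : ∀ l, (S l).card ≤ 1) (h2 : ∀ l l', l ≠ l' → Disjoint (S l) (S l'))
    (hc : Fintype.card α ≤ Fintype.card β) :
    ∃ σ : α → β, Function.Injective σ ∧ ∀ l, ∀ k ∈ S l, k = σ l := by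
  classical
  by_cases hα : Nonempty α
  swap
  · exact ⟨fun l => (hα ⟨l⟩).elim, fun l => (hα ⟨l⟩).elim, fun l => (hα ⟨l⟩).elim⟩
  have hβ : Nonempty β := by
    rw [← Fintype.card_pos_iff]
    exact lt_of_lt_of_le (Fintype.card_pos_iff.mpr hα) hc
  let f : α → β := fun l => if h : (S l).Nonempty then h.choose else Classical.arbitrary β
  have hf : ∀ l, (S l).Nonempty → f l ∈ S l := by
    intro l h
    have : f l = h.choose := dif_pos h
    rw [this]
    exact h.choose_spec
  let s : Finset α := Finset.univ.filter fun l => (S l).Nonempty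
  have hs : ∀ l, l ∈ s ↔ (S l).Nonempty := by intro l; simp [s]
  have hinj : Set.InjOn f s := by
    intro l hl l' hl' hll
    rw [Finset.mem_coe, hs] at hl hl'
    by_contra hne
    have := Finset.disjoint_left.mp (h2 l l' hne) (hf l hl)
    rw [hll] at this
    exact this (hf l' hl')
  have hcs : (s.image f).card ≤ Fintype.card α :=
    le_trans Finset.card_image_le (Finset.card_le_univ _)
  obtain ⟨t, ht1, ht2⟩ := Finset.exists_superset_card_eq hcs hc
  obtain ⟨g, hg⟩ := Finset.exists_equiv_extend_of_card_eq ht2.symm ht1 hinj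
  refine ⟨fun l => g l, ?_, ?_⟩
  · intro l l' h
    exact g.injective (Subtype.ext h)
  · intro l k hk
    have hne : (S l).Nonempty := ⟨k, hk⟩
    show k = (g l : β)
    rw [hg l ((hs l).mpr hne)]
    exact Finset.card_le_one.mp (h1 l) k hk (f l) (hf l hne)

/-- the sum of the pairwise minima -/
noncomputable def pm {K : Type} [Fintype K] [DecidableEq K] (w : K → ℝ) : ℝ :=
  ∑ k, ∑ k', if k = k' then 0 else min (w k) (w k')

theorem pm_nonneg_term {K : Type} [DecidableEq K] {w : K → ℝ} (hw : ∀ k, 0 ≤ w k)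
    (k k' : K) : 0 ≤ (if k = k' then 0 else min (w k) (w k')) := by
  split_ifs
  · exact le_rfl
  · exact le_min (hw k) (hw k')

theorem pm_eq_zero {K : Type} [Fintype K] [DecidableEq K] {w : K → ℝ} (hw : ∀ k, 0 ≤ w k) :
    pm w = 0 ↔ (Finset.univ.filter fun k => w k ≠ 0).card ≤ 1 := by
  constructor
  · intro h
    rw [Finset.card_le_one]
    intro k hk k' hk'
    simp only [Finset.mem_filter, Finset.mem_univ, true_and] at hk hk'
    by_contra hne
    unfold pm at h
    rw [Finset.sum_eq_zero_iff_of_nonneg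
      (fun k _ => Finset.sum_nonneg fun k' _ => pm_nonneg_term hw k k')] at h
    have h1 := h k (Finset.mem_univ _)
    rw [Finset.sum_eq_zero_iff_of_nonneg (fun k' _ => pm_nonneg_term hw k k')] at h1
    have h2 := h1 k' (Finset.mem_univ _)
    rw [if_neg hne] at h2
    have h3 : 0 < w k := lt_of_le_of_ne (hw k) (Ne.symm hk)
    have h4 : 0 < w k' := lt_of_le_of_ne (hw k') (Ne.symm hk')
    have := lt_min h3 h4
    linarith
  · intro h
    rw [Finset.card_le_one] at h
    unfold pm
    refine Finset.sum_eq_zero fun k _ => Finset.sum_eq_zero fun k' _ => ?_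
    split_ifs with hkk
    · rfl
    · by_cases h1 : w k = 0
      · rw [h1]; exact min_eq_left (hw k')
      · by_cases h2 : w k' = 0
        · rw [h2]; exact min_eq_right (hw k)
        · exact absurd (h k (by simp [h1]) k' (by simp [h2])) hkk

theorem pm_continuous {K X : Type} [Fintype K] [DecidableEq K] [TopologicalSpace X]
    {w : X → K → ℝ} (hw : ∀ k, Continuous fun x => w x k) : Continuous fun x => pm (w x) := by
  unfold pm
  refine continuous_finsetSum _ fun k _ => continuous_finsetSum _ fun k' _ => ?_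
  by_cases h : k = k'
  · simp only [h, if_true]; exact continuous_const
  · simp only [h, if_false]; exact (hw k).min (hw k')

/-- **Coloured Tverberg theorem** for a prime `p` and `d + 1` classes of `2p-1` points of `ℝ^d`. -/
theorem colored_tverberg (p d : ℕ) [Fact p.Prime]
    (a : Fin (d + 1) → Fin (2 * p - 1) → EuclideanSpace ℝ (Fin d)) :
    ∃ (σ : Fin (d + 1) → ZMod p → Fin (2 * p - 1)) (y : EuclideanSpace ℝ (Fin d)),
      (∀ j, Function.Injective (σ j)) ∧
      ∀ l, y ∈ convexHull ℝ (Set.range fun j => a j (σ j l)) := by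
  classical
  have hpp : p.Prime := Fact.out
  have hp2 : 2 ≤ p := hpp.two_le
  let M := (d + 1) * (2 * p - 1)
  let e : Fin (d + 1) × Fin (2 * p - 1) ≃ Fin M := finProdFinEquiv
  let T := Option (Fin d ⊕ Fin (d + 1))
  let Φ : T → VV p M → ZMod p → ℝ := fun t x l =>
    match t with
    | none => ∑ i, x (e i) l
    | some (Sum.inl c) => ∑ i, x (e i) l * a i.1 i.2 c
    | some (Sum.inr j) => pm fun k => x (e (j, k)) l
  have hcard : Fintype.card T * (p - 1) < M := by
    have h1 : Fintype.card T = 2 * (d + 1) := by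
      simp only [T, Fintype.card_option, Fintype.card_sum, Fintype.card_fin]
      ring
    rw [h1]
    show 2 * (d + 1) * (p - 1) < (d + 1) * (2 * p - 1)
    have h2 : 2 * (d + 1) * (p - 1) = (d + 1) * (2 * (p - 1)) := by ring
    rw [h2]
    exact Nat.mul_lt_mul_of_pos_left (by omega) (by omega)
  have hcont : ∀ t l, Continuous fun x => Φ t x l := by
    rintro (_ | c | j) l
    · show Continuous fun x : VV p M => ∑ i, x (e i) l
      fun_prop
    · show Continuous fun x : VV p M => ∑ i, x (e i) l * a i.1 i.2 c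
      fun_prop
    · show Continuous fun x : VV p M => pm fun k => x (e (j, k)) l
      refine pm_continuous (w := fun (x : VV p M) k => x (e (j, k)) l) fun k => ?_
      fun_prop
  obtain ⟨x, ⟨hx0, hx1, hx2⟩, hx⟩ := exists_const p M hcard Φ hcont (by
    rintro (_ | c | j) x l <;> rfl)
  -- mass
  have hm : ∀ l, ∑ i, x (e i) l = ∑ i, x (e i) 0 := fun l => hx none l 0
  have hmass : (p : ℝ) * ∑ i, x (e i) 0 = 1 := by
    rw [← hx1, Finset.sum_comm]
    have h1 : ∀ l, ∑ i, x i l = ∑ i, x (e i) 0 := by
      intro l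
      rw [← hm l]
      exact (Equiv.sum_comp e fun i => x i l).symm
    rw [Finset.sum_congr rfl fun l _ => h1 l, Finset.sum_const, Finset.card_univ, ZMod.card,
      nsmul_eq_mul]
  set m := ∑ i, x (e i) 0 with hmdef
  have hm0 : 0 < m := by
    have hp0 : (0 : ℝ) < p := by exact_mod_cast hpp.pos
    by_contra hcon
    push Not at hcon
    have := mul_nonpos_of_nonneg_of_nonpos hp0.le hcon
    linarith
  -- the classes
  let S : Fin (d + 1) → ZMod p → Finset (Fin (2 * p - 1)) := fun j l =>
    Finset.univ.filter fun k => x (e (j, k)) l ≠ 0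
  have hSd : ∀ j l l', l ≠ l' → Disjoint (S j l) (S j l') := by
    intro j l l' hll
    rw [Finset.disjoint_left]
    intro k hk hk'
    simp only [S, Finset.mem_filter, Finset.mem_univ, true_and] at hk hk'
    rcases hx2 (e (j, k)) l l' hll with h | h
    · exact hk h
    · exact hk' h
  have hSle : ∀ j, ∃ l, (S j l).card ≤ 1 := by
    intro j
    by_contra hcon
    push Not at hcon
    have h1 : (Finset.univ.biUnion (S j)).card = ∑ l, (S j l).card :=
      Finset.card_biUnion fun l _ l' _ hll => hSd j l l' hll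
    have h2 : (Finset.univ.biUnion (S j)).card ≤ 2 * p - 1 := by
      have := Finset.card_le_univ (Finset.univ.biUnion (S j))
      rwa [Fintype.card_fin] at this
    have h3 : ∑ _l : ZMod p, 2 ≤ ∑ l, (S j l).card := Finset.sum_le_sum fun l _ => hcon l
    rw [Finset.sum_const, Finset.card_univ, ZMod.card, smul_eq_mul] at h3
    omega
  have hS1 : ∀ j l, (S j l).card ≤ 1 := by
    intro j l
    obtain ⟨l0, h0⟩ := hSle j
    have h1 := hx (some (Sum.inr j)) l l0
    have h2 : pm (fun k => x (e (j, k)) l0) = 0 := (pm_eq_zero fun k => hx0 _ _).mpr h0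
    have h3 : pm (fun k => x (e (j, k)) l) = 0 := h1.trans h2
    exact (pm_eq_zero fun k => hx0 _ _).mp h3
  choose σ hσ1 hσ2 using fun j => exists_inj (S j) (hS1 j) (hSd j)
    (by rw [ZMod.card, Fintype.card_fin]; omega)
  have hsum : ∀ l, ∑ j, x (e (j, σ j l)) l = m := by
    intro l
    rw [← hm l, Fintype.sum_prod_type]
    refine Finset.sum_congr rfl fun j _ => ?_
    refine (Finset.sum_eq_single (f := fun k => x (e (j, k)) l) (σ j l)
      (fun k _ hk => ?_) fun h => ?_).symm
    · by_contra hne
      exact hk (hσ2 j l k (by simp only [S, Finset.mem_filter, Finset.mem_univ, true_and]; exact hne))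
    · exact absurd (Finset.mem_univ _) h
  have hsumc : ∀ l c, ∑ j, x (e (j, σ j l)) l * a j (σ j l) c
      = ∑ j, x (e (j, σ j 0)) 0 * a j (σ j 0) c := by
    have h1 : ∀ l c, ∑ j, x (e (j, σ j l)) l * a j (σ j l) c = Φ (some (Sum.inl c)) x l := by
      intro l c
      show _ = ∑ i, x (e i) l * a i.1 i.2 c
      rw [Fintype.sum_prod_type]
      refine Finset.sum_congr rfl fun j _ => ?_
      refine (Finset.sum_eq_single (f := fun k => x (e (j, k)) l * a j k c) (σ j l)
        (fun k _ hk => ?_) fun h => ?_).symm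
      · by_contra hne
        refine hk (hσ2 j l k ?_)
        simp only [S, Finset.mem_filter, Finset.mem_univ, true_and]
        intro h0
        exact hne (by show x (e (j, k)) l * a j k c = 0; rw [h0, zero_mul])
      · exact absurd (Finset.mem_univ _) h
    intro l c
    rw [h1, h1]
    exact hx (some (Sum.inl c)) l 0
  refine ⟨σ, ∑ j, (m⁻¹ * x (e (j, σ j 0)) 0) • a j (σ j 0), hσ1, fun l => ?_⟩
  have hy : ∑ j, (m⁻¹ * x (e (j, σ j 0)) 0) • a j (σ j 0)
      = ∑ j, (m⁻¹ * x (e (j, σ j l)) l) • a j (σ j l) := by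
    ext c
    have h1 : ∀ l, (∑ j, (m⁻¹ * x (e (j, σ j l)) l) • a j (σ j l)) c
        = m⁻¹ * ∑ j, x (e (j, σ j l)) l * a j (σ j l) c := by
      intro l
      rw [WithLp.ofLp_sum, Finset.sum_apply, Finset.mul_sum]
      refine Finset.sum_congr rfl fun j _ => ?_
      simp [mul_assoc]
    rw [h1, h1, hsumc l c]
  rw [hy]
  refine (convex_convexHull ℝ _).sum_mem (fun j _ => ?_) ?_ fun j _ => ?_
  · exact mul_nonneg (inv_nonneg.mpr hm0.le) (hx0 _ _)
  · rw [← Finset.mul_sum, hsum l, inv_mul_cancel₀ hm0.ne']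
  · exact subset_convexHull ℝ _ ⟨j, rfl⟩

end Pool.Agent.Zk96.HSel
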