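import Mathlib

/-!
A weak regularity lemma for `n`-partite `n`-uniform hypergraphs.
-/

set_option autoImplicit false

namespace Pool.Agent.Zk96.HSel

open Set
open scoped BigOperators

theorem rpow_pair_le {u z θ : ℝ} (hu : 0 ≤ u) (hz : 0 ≤ z) (h0 : 0 ≤ θ) (h1 : θ ≤ 1) :
    u ^ θ + z ^ θ ≤ 2 ^ (1 - θ) * (u + z) ^ θ := by
  have h := (Real.concaveOn_rpow h0 h1).2 (Set.mem_Ici.mpr hu) (Set.mem_Ici.mpr hz)
    (show (0 : ℝ) ≤ 1 / 2 by norm_num) (show (0 : ℝ) ≤ 1 / 2 by norm_num) (by norm_num)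
  simp only [smul_eq_mul] at h
  have h2 : (1 / 2 * u + 1 / 2 * z) ^ θ = (1 / 2) ^ θ * (u + z) ^ θ := by
    rw [← Real.mul_rpow (by norm_num) (by positivity)]
    congr 1
    ring
  rw [h2] at h
  have h3 : (2 : ℝ) ^ (1 - θ) = 2 * (1 / 2) ^ θ := by
    rw [Real.rpow_sub (by norm_num), Real.rpow_one, one_div, Real.inv_rpow (by norm_num),
      div_eq_mul_inv]
  rw [h3]
  nlinarith

open Classical in
theorem weak_reg (n : ℕ) (hn : 0 < n) (K : ℕ) (hK : 0 < K) (ε : ℝ) (hε : 0 < ε) (hε1 : ε ≤ 1) :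
    ∃ γ : ℝ, 0 < γ ∧ ∀ (I : Fin n → Type) [∀ j, Fintype (I j)] [∀ j, Nonempty (I j)]
      (H : Finset (∀ j, I j)), (Fintype.card (∀ j, I j) : ℝ) ≤ K * H.card →
      ∃ Y : ∀ j, Finset (I j), (∀ j, γ * Fintype.card (I j) ≤ (Y j).card) ∧
        ∀ Z : ∀ j, Finset (I j), (∀ j, Z j ⊆ Y j) → (∀ j, ε * (Y j).card ≤ (Z j).card) →
          ∃ x ∈ H, ∀ j, x j ∈ Z j := by
  have hn' : (0 : ℝ) < n := by exact_mod_cast hn
  have hεn : 0 < ε ^ n := pow_pos hε n
  have hεn1 : ε ^ n ≤ 1 := pow_le_one₀ hε.le hε1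
  set δ : ℝ := ε ^ n / (2 * n) with hδ
  have hδ0 : 0 < δ := by positivity
  have hδn : δ * n = ε ^ n / 2 := by
    rw [hδ]; field_simp
  have hδ1 : δ ≤ 1 / 2 := by
    have : δ * 1 ≤ δ * n := mul_le_mul_of_nonneg_left (by exact_mod_cast hn) hδ0.le
    linarith
  set θ : ℝ := 1 - δ with hθ
  have hθ0 : 0 < θ := by linarith
  have hθ1 : θ ≤ 1 := by linarith
  have hK' : (0 : ℝ) < K := by exact_mod_cast hK
  refine ⟨(1 / (K : ℝ)) ^ (1 / δ), by positivity, ?_⟩
  intro I _ _ H hH
  let e : (∀ j, Finset (I j)) → ℝ := fun Y => ((H.filter fun x => ∀ j, x j ∈ Y j).card : ℝ)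
  let w : (∀ j, Finset (I j)) → ℝ := fun Y => ∏ j, ((Y j).card : ℝ) ^ θ
  let Fam : Finset (∀ j, Finset (I j)) := Finset.univ.filter fun Y => ∀ j, (Y j).Nonempty
  have huniv : (fun j => (Finset.univ : Finset (I j))) ∈ Fam := by
    simp only [Fam, Finset.mem_filter, Finset.mem_univ, true_and]
    intro j
    exact Finset.univ_nonempty
  obtain ⟨Y, hY, hmax⟩ := Finset.exists_max_image Fam (fun Y => e Y / w Y) ⟨_, huniv⟩
  simp only [Fam, Finset.mem_filter, Finset.mem_univ, true_and] at hY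
  have hw0 : ∀ Y' : ∀ j, Finset (I j), (∀ j, (Y' j).Nonempty) → 0 < w Y' := by
    intro Y' h
    refine Finset.prod_pos fun j _ => Real.rpow_pos_of_pos ?_ _
    exact_mod_cast Finset.card_pos.mpr (h j)
  have hwn : ∀ Y' : ∀ j, Finset (I j), 0 ≤ w Y' := fun Y' =>
    Finset.prod_nonneg fun j _ => Real.rpow_nonneg (Nat.cast_nonneg _) _
  set lam := e Y / w Y with hlam
  have hIpos : (0 : ℝ) < Fintype.card (∀ j, I j) := by exact_mod_cast Fintype.card_pos
  have hHpos : (0 : ℝ) < H.card := by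
    by_contra h
    push Not at h
    have : (K : ℝ) * H.card ≤ 0 := mul_nonpos_of_nonneg_of_nonpos hK'.le h
    linarith
  have heu : e (fun j => Finset.univ) = H.card := by
    simp [e]
  have hlam1 : (H.card : ℝ) / w (fun j => Finset.univ) ≤ lam := by
    have := hmax _ huniv
    simp only [heu] at this
    exact this
  have hlam0 : 0 < lam := by
    refine lt_of_lt_of_le (div_pos hHpos (hw0 _ fun j => Finset.univ_nonempty)) hlam1
  have hle : ∀ Y' : ∀ j, Finset (I j), e Y' ≤ lam * w Y' := by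
    intro Y'
    by_cases h : ∀ j, (Y' j).Nonempty
    · have h1 : e Y' / w Y' ≤ lam := hmax Y' (by
        simp only [Fam, Finset.mem_filter, Finset.mem_univ, true_and]; exact h)
      rwa [div_le_iff₀ (hw0 Y' h)] at h1
    · push Not at h
      obtain ⟨j, hj⟩ := h
      have h1 : e Y' = 0 := by
        simp only [e, Nat.cast_eq_zero, Finset.card_eq_zero, Finset.filter_eq_empty_iff]
        intro x _ hx
        have := hx j
        rw [hj] at this
        simp at this
      rw [h1]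
      exact mul_nonneg hlam0.le (hwn Y')
  have heY : e Y = lam * w Y := by
    rw [hlam, div_mul_cancel₀ _ (hw0 Y hY).ne']
  have hYc : ∀ j, (0 : ℝ) < (Y j).card := fun j => by exact_mod_cast Finset.card_pos.mpr (hY j)
  have hIc : ∀ j, (0 : ℝ) < Fintype.card (I j) := fun j => by exact_mod_cast Fintype.card_pos
  refine ⟨Y, ?_, ?_⟩
  · -- sizes
    set PY : ℝ := ∏ j, ((Y j).card : ℝ) with hPY
    set PI : ℝ := ∏ j, (Fintype.card (I j) : ℝ) with hPI
    have hPY0 : 0 < PY := Finset.prod_pos fun j _ => hYc j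
    have hPI0 : 0 < PI := Finset.prod_pos fun j _ => hIc j
    have hPI' : (Fintype.card (∀ j, I j) : ℝ) = PI := by
      rw [Fintype.card_pi, Nat.cast_prod]
    have h1 : e Y ≤ PY := by
      have h2 : (H.filter fun x => ∀ j, x j ∈ Y j).card ≤ ∏ j, (Y j).card := by
        rw [← Fintype.card_piFinset]
        refine Finset.card_le_card fun x hx => ?_
        rw [Finset.mem_filter] at hx
        exact Fintype.mem_piFinset.mpr hx.2
      show ((H.filter fun x => ∀ j, x j ∈ Y j).card : ℝ) ≤ ∏ j, ((Y j).card : ℝ)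
      rw [← Nat.cast_prod]
      exact_mod_cast h2
    have hwY : w Y = PY ^ θ := Real.finsetProd_rpow _ _ (fun j _ => (hYc j).le) _
    have hwI : w (fun j => Finset.univ) = PI ^ θ := by
      rw [hPI, ← Real.finsetProd_rpow _ _ (fun j _ => (hIc j).le)]
      simp [w]
    have h3 : lam ≤ PY ^ δ := by
      rw [hlam, hwY, div_le_iff₀ (Real.rpow_pos_of_pos hPY0 _), ← Real.rpow_add hPY0]
      have : δ + θ = 1 := by rw [hθ]; ring
      rw [this, Real.rpow_one]
      exact h1
    have h4 : 1 / (K : ℝ) * PI ^ δ ≤ lam := by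
      refine le_trans ?_ hlam1
      rw [hwI, le_div_iff₀ (Real.rpow_pos_of_pos hPI0 _), mul_assoc, ← Real.rpow_add hPI0]
      have : δ + θ = 1 := by rw [hθ]; ring
      rw [this, Real.rpow_one, ← hPI']
      rw [one_div, inv_mul_le_iff₀ hK']
      exact hH
    have h5 : 1 / (K : ℝ) ≤ (PY / PI) ^ δ := by
      rw [Real.div_rpow hPY0.le hPI0.le, le_div_iff₀ (Real.rpow_pos_of_pos hPI0 _)]
      linarith
    have h6 : (1 / (K : ℝ)) ^ (1 / δ) ≤ PY / PI := by
      have h7 := Real.rpow_le_rpow (one_div_pos.mpr hK').le h5 (one_div_pos.mpr hδ0).le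
      rwa [← Real.rpow_mul (div_pos hPY0 hPI0).le, mul_one_div, div_self hδ0.ne',
        Real.rpow_one] at h7
    intro j
    have h8 : PY / PI ≤ (Y j).card / Fintype.card (I j) := by
      rw [div_le_div_iff₀ hPI0 (hIc j)]
      have h9 : PY = (Y j).card * ∏ i ∈ Finset.univ.erase j, ((Y i).card : ℝ) := by
        rw [hPY, Finset.mul_prod_erase _ (fun i => ((Y i).card : ℝ)) (Finset.mem_univ j)]
      have h10 : PI = Fintype.card (I j) * ∏ i ∈ Finset.univ.erase j,
          (Fintype.card (I i) : ℝ) := by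
        rw [hPI, Finset.mul_prod_erase _ (fun i => (Fintype.card (I i) : ℝ)) (Finset.mem_univ j)]
      have h11 : ∏ i ∈ Finset.univ.erase j, ((Y i).card : ℝ)
          ≤ ∏ i ∈ Finset.univ.erase j, (Fintype.card (I i) : ℝ) :=
        Finset.prod_le_prod (fun i _ => (hYc i).le) fun i _ => by
          exact_mod_cast Finset.card_le_univ (Y i)
      rw [h9, h10]
      have h12 := mul_le_mul_of_nonneg_left h11 (mul_nonneg (hYc j).le (hIc j).le)
      nlinarith
    have h13 := le_trans h6 h8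
    rwa [le_div_iff₀ (hIc j)] at h13
  · -- edges
    intro Z hZY hZc
    by_contra hcon
    push Not at hcon
    let box : Finset (Fin n) → ∀ j, Finset (I j) := fun S j => if j ∈ S then Y j \ Z j else Z j
    have h1 : e Y ≤ ∑ S ∈ Finset.univ.erase ∅, e (box S) := by
      have h2 : (H.filter fun x => ∀ j, x j ∈ Y j) ⊆ (Finset.univ.erase ∅).biUnion fun S =>
          H.filter fun x => ∀ j, x j ∈ box S j := by
        intro x hx
        rw [Finset.mem_filter] at hx
        rw [Finset.mem_biUnion]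
        refine ⟨Finset.univ.filter fun j => x j ∉ Z j, ?_, ?_⟩
        · rw [Finset.mem_erase]
          refine ⟨?_, Finset.mem_univ _⟩
          obtain ⟨j, hj⟩ := hcon x hx.1
          intro h
          rw [Finset.filter_eq_empty_iff] at h
          exact h (Finset.mem_univ j) hj
        · rw [Finset.mem_filter]
          refine ⟨hx.1, fun j => ?_⟩
          by_cases hj : x j ∈ Z j
          · simp [box, hj]
          · simp [box, hj, hx.2 j]
      have h3 := (Finset.card_le_card h2).trans Finset.card_biUnion_le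
      show ((H.filter fun x => ∀ j, x j ∈ Y j).card : ℝ) ≤
        ∑ S ∈ Finset.univ.erase ∅, ((H.filter fun x => ∀ j, x j ∈ box S j).card : ℝ)
      exact_mod_cast h3
    have h4 : ∑ S ∈ Finset.univ.erase (∅ : Finset (Fin n)), e (box S)
        ≤ lam * ∑ S ∈ Finset.univ.erase (∅ : Finset (Fin n)), w (box S) := by
      rw [Finset.mul_sum]
      exact Finset.sum_le_sum fun S _ => hle _
    have h5 : ∑ S ∈ Finset.univ.erase (∅ : Finset (Fin n)), w (box S)
        = ∏ j, (((Y j \ Z j).card : ℝ) ^ θ + ((Z j).card : ℝ) ^ θ)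
          - ∏ j, ((Z j).card : ℝ) ^ θ := by
      have h6 : ∑ S : Finset (Fin n), w (box S)
          = ∏ j, (((Y j \ Z j).card : ℝ) ^ θ + ((Z j).card : ℝ) ^ θ) := by
        rw [Finset.prod_add, Finset.powerset_univ]
        refine Finset.sum_congr rfl fun S _ => ?_
        show ∏ j, ((box S j).card : ℝ) ^ θ = _
        rw [← Finset.prod_sdiff (Finset.subset_univ S), mul_comm]
        congr 1
        · refine Finset.prod_congr rfl fun j hj => ?_
          simp [box, hj]
        · refine Finset.prod_congr rfl fun j hj => ?_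
          rw [Finset.mem_sdiff] at hj
          simp [box, hj.2]
      have h7 : w (box ∅) = ∏ j, ((Z j).card : ℝ) ^ θ := by simp [w, box]
      rw [← h6, ← h7, ← Finset.add_sum_erase _ (fun S => w (box S)) (Finset.mem_univ ∅)]
      ring
    have h8 : w Y ≤ ∏ j, (((Y j \ Z j).card : ℝ) ^ θ + ((Z j).card : ℝ) ^ θ)
          - ∏ j, ((Z j).card : ℝ) ^ θ := by
      have h9 := h1.trans h4
      rw [heY, h5] at h9
      exact le_of_mul_le_mul_left h9 hlam0
    have h10 : ∏ j, (((Y j \ Z j).card : ℝ) ^ θ + ((Z j).card : ℝ) ^ θ)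
        ≤ (2 ^ δ) ^ n * w Y := by
      have h11 : (2 ^ δ) ^ n * w Y = ∏ j, ((2 : ℝ) ^ δ * ((Y j).card : ℝ) ^ θ) := by
        rw [Finset.prod_mul_distrib, Finset.prod_const, Finset.card_univ, Fintype.card_fin]
      rw [h11]
      refine Finset.prod_le_prod (fun j _ => add_nonneg (Real.rpow_nonneg (Nat.cast_nonneg _) _)
        (Real.rpow_nonneg (Nat.cast_nonneg _) _)) fun j _ => ?_
      have h12 := rpow_pair_le (Nat.cast_nonneg (Y j \ Z j).card) (Nat.cast_nonneg (Z j).card)
        hθ0.le hθ1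
      have h13 : ((Y j \ Z j).card : ℝ) + (Z j).card = (Y j).card := by
        exact_mod_cast Finset.card_sdiff_add_card_eq_card (hZY j)
      have h14 : 1 - θ = δ := by rw [hθ]; ring
      rw [h13, h14] at h12
      exact h12
    have h15 : ε ^ n * w Y ≤ ∏ j, ((Z j).card : ℝ) ^ θ := by
      have h11 : ε ^ n * w Y = ∏ j, (ε * ((Y j).card : ℝ) ^ θ) := by
        rw [Finset.prod_mul_distrib, Finset.prod_const, Finset.card_univ, Fintype.card_fin]
      rw [h11]
      refine Finset.prod_le_prod (fun j _ => mul_nonneg hε.le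
        (Real.rpow_nonneg (Nat.cast_nonneg _) _)) fun j _ => ?_
      have h16 : ε ≤ ε ^ θ := by
        conv_lhs => rw [← Real.rpow_one ε]
        exact Real.rpow_le_rpow_of_exponent_ge hε hε1 hθ1
      calc ε * ((Y j).card : ℝ) ^ θ ≤ ε ^ θ * ((Y j).card : ℝ) ^ θ :=
            mul_le_mul_of_nonneg_right h16 (Real.rpow_nonneg (Nat.cast_nonneg _) _)
        _ = (ε * (Y j).card) ^ θ := (Real.mul_rpow hε.le (Nat.cast_nonneg _)).symm
        _ ≤ ((Z j).card : ℝ) ^ θ := Real.rpow_le_rpow (mul_nonneg hε.le (Nat.cast_nonneg _)) (hZc j) hθ0.le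
    have h17 : ((2 : ℝ) ^ δ) ^ n ≤ 1 + ε ^ n / 2 := by
      rw [← Real.rpow_natCast, ← Real.rpow_mul (by norm_num), hδn]
      have h18 := rpow_one_add_le_one_add_mul_self (s := 1) (by norm_num)
        (p := ε ^ n / 2) (by positivity) (by linarith)
      have h19 : (1 : ℝ) + 1 = 2 := by norm_num
      rw [h19, mul_one] at h18
      exact h18
    have hwY := hw0 Y hY
    have h20 : (2 ^ δ) ^ n * w Y ≤ (1 + ε ^ n / 2) * w Y :=
      mul_le_mul_of_nonneg_right h17 hwY.le
    nlinarith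

end Pool.Agent.Zk96.HSel
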