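import Pool.Agent.Zk96.HSel.Same
import Pool.Agent.Zk96.HSel.Reg

/-!
The homogeneous selection theorem for classes of arbitrary sizes.
-/

set_option autoImplicit false

namespace Pool.Agent.Zk96.HSel

open Set Filter Topology
open scoped BigOperators

theorem generic (m : ℕ) : ∃ c : ℝ, 0 < c ∧ ∃ N0 : ℕ, 0 < N0 ∧
    ∀ (I : Fin (m + 1 + 1) → Type) [∀ j, Fintype (I j)] [∀ j, Nonempty (I j)]
      (a : ∀ j, I j → E (m + 1)), Gen a → (∀ j, N0 ≤ Fintype.card (I j)) →
      ∃ (v : E (m + 1)) (D : ∀ j, Finset (I j)),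
        (∀ j, c * Fintype.card (I j) ≤ (D j).card) ∧
        ∀ x, (∀ j, x j ∈ D j) → v ∈ cv a x := by
  classical
  obtain ⟨K, hK, hsel⟩ := selection (m + 1)
  set κ := Fintype.card (Fin (m + 1 + 1) × (Fin (m + 1 + 1) → Bool)) with hκ
  set ε : ℝ := 1 / 2 ^ (κ + 1) with hε
  have hε0 : 0 < ε := by positivity
  have hε1 : ε ≤ 1 := by
    rw [hε, div_le_one (by positivity)]
    exact one_le_pow₀ (by norm_num)
  obtain ⟨γ, hγ, hreg⟩ := weak_reg (m + 1 + 1) (by omega) K hK ε hε0 hε1
  obtain ⟨N0, hN0⟩ := exists_nat_gt ((2 : ℝ) ^ (κ + 1) * (2 * (m + 1)) / γ)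
  refine ⟨ε * γ, by positivity, N0, ?_, ?_⟩
  · have : (0 : ℝ) < N0 := lt_of_le_of_lt (by positivity) hN0
    exact_mod_cast this
  intro I _ _ a hG hcard
  obtain ⟨v, hv⟩ := hsel I a
  let H : Finset (∀ j, I j) := Finset.univ.filter fun x => v ∈ cv a x
  have hH : (Fintype.card (∀ j, I j) : ℝ) ≤ K * H.card := by
    have h1 : Nat.card {x : ∀ j, I j // v ∈ cv a x} = H.card := by
      rw [Nat.card_eq_fintype_card, Fintype.card_subtype]
    rw [h1, Nat.card_eq_fintype_card] at hv
    exact_mod_cast hv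
  obtain ⟨Y, hY1, hY2⟩ := hreg I H hH
  obtain ⟨Z, hZ1, hZ2, hZ3⟩ := iter a hG v Y Finset.univ
  rw [Finset.card_univ, ← hκ] at hZ2
  have hZc : ∀ j, ε * (Y j).card ≤ (Z j).card := by
    intro j
    have h1 : ((Y j).card : ℝ) ≤ 2 ^ κ * ((Z j).card + 2 * (m + 1)) := by
      exact_mod_cast hZ2 j
    have h2 : (2 : ℝ) ^ (κ + 1) * (2 * (m + 1)) ≤ (Y j).card := by
      rw [div_lt_iff₀ hγ] at hN0
      have h3 : (N0 : ℝ) ≤ Fintype.card (I j) := by exact_mod_cast hcard j
      have h4 := mul_le_mul_of_nonneg_left h3 hγ.le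
      have h5 := hY1 j
      linarith
    rw [hε, one_div, inv_mul_le_iff₀ (by positivity)]
    rw [pow_succ] at h2 ⊢
    nlinarith
  obtain ⟨x0, hx0, hx0'⟩ := hY2 Z hZ1 hZc
  rw [Finset.mem_filter] at hx0
  have hS : ∀ j0 e, Sep a v Z j0 e := fun j0 e => hZ3 (j0, e) (Finset.mem_univ _)
  have hP := posDep_of_mem hS hx0' hx0.2
  refine ⟨v, Z, fun j => ?_, fun x hx => mem_of_posDep (posDep_all hS hx0' hx hP)⟩
  have h1 := mul_le_mul_of_nonneg_left (hY1 j) hε0.le
  calc ε * γ * Fintype.card (I j) = ε * (γ * Fintype.card (I j)) := by ring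
    _ ≤ ε * (Y j).card := h1
    _ ≤ (Z j).card := hZc j

/-! ### perturbation -/

/-- the point of the moment curve -/
noncomputable def mc (d : ℕ) (t : ℝ) : E d := WithLp.toLp 2 fun c : Fin d => t ^ ((c : ℕ) + 1)

theorem mc_apply (d : ℕ) (t : ℝ) (c : Fin d) : mc d t c = t ^ ((c : ℕ) + 1) := rfl

theorem exists_gen {d : ℕ} {I : Fin (d + 1) → Type} [∀ j, Fintype (I j)]
    (a : ∀ j, I j → E d) (t : ∀ j, I j → ℝ) (ht : ∀ j, Function.Injective (t j)) :
    ∃ S0 : ℝ, ∀ s, S0 < s → Gen fun j z => s • a j z + mc d (t j z) := by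
  classical
  let al : ∀ j, I j → Fin (d + 1) → ℝ := fun j z => Fin.cons 0 fun c => a j z c
  let P : ∀ j, (Fin (d + 1) ↪ I j) → Polynomial ℝ := fun j w =>
    (Matrix.of fun i k : Fin (d + 1) =>
      Polynomial.C (t j (w i) ^ (k : ℕ)) + Polynomial.X * Polynomial.C (al j (w i) k)).det
  have hPe : ∀ j w s, (P j w).eval s
      = (Matrix.of fun i k : Fin (d + 1) => t j (w i) ^ (k : ℕ) + s * al j (w i) k).det := by
    intro j w s
    have h1 := RingHom.map_det (Polynomial.evalRingHom s) (Matrix.of fun i k : Fin (d + 1) =>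
      Polynomial.C (t j (w i) ^ (k : ℕ)) + Polynomial.X * Polynomial.C (al j (w i) k))
    rw [Polynomial.coe_evalRingHom] at h1
    show ((Matrix.of fun i k : Fin (d + 1) =>
      Polynomial.C (t j (w i) ^ (k : ℕ)) + Polynomial.X * Polynomial.C (al j (w i) k)).det).eval s
      = _
    rw [h1]
    congr 1
    ext i k
    simp only [RingHom.mapMatrix_apply, Matrix.map_apply, Matrix.of_apply,
      Polynomial.coe_evalRingHom, Polynomial.eval_add, Polynomial.eval_mul, Polynomial.eval_C,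
      Polynomial.eval_X]
  have hP0 : ∀ j w, P j w ≠ 0 := by
    intro j w h
    have h1 := hPe j w 0
    rw [h, Polynomial.eval_zero] at h1
    have h2 : (Matrix.of fun i k : Fin (d + 1) => t j (w i) ^ (k : ℕ) + 0 * al j (w i) k)
        = Matrix.vandermonde fun i => t j (w i) := by
      ext i k
      simp [Matrix.vandermonde_apply]
    rw [h2] at h1
    exact (Matrix.det_vandermonde_ne_zero_iff.mpr ((ht j).comp w.injective)) h1.symm
  have hfin : (⋃ j, ⋃ w : Fin (d + 1) ↪ I j, {s | (P j w).IsRoot s}).Finite :=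
    Set.finite_iUnion fun j => Set.finite_iUnion fun w =>
      Polynomial.finite_setOfPred_isRoot (hP0 j w)
  obtain ⟨S0, hS0⟩ := hfin.bddAbove
  refine ⟨S0, fun s hs => ?_⟩
  intro h hne v j Z
  by_contra hcon
  push Not at hcon
  set F := Z.filter fun z => lf h (fun j z => s • a j z + mc d (t j z)) v j z = 0 with hF
  have hcard : d + 1 ≤ F.card := by
    have : F.card = (Z.filter fun z =>
      lf h (fun j z => s • a j z + mc d (t j z)) v j z = 0).card := by
      rw [hF]
    omega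
  have hemb : Nonempty (Fin (d + 1) ↪ F) := by
    rw [Function.Embedding.nonempty_iff_card_le, Fintype.card_fin, Fintype.card_coe]
    exact hcard
  obtain ⟨w0⟩ := hemb
  let w : Fin (d + 1) ↪ I j := w0.trans (Function.Embedding.subtype _)
  have hw : ∀ i, lf h (fun j z => s • a j z + mc d (t j z)) v j (w i) = 0 := by
    intro i
    have := (Finset.mem_filter.mp (w0 i).2).2
    exact this
  have hroot : (P j w).eval s = 0 := by
    rw [hPe, ← Matrix.exists_mulVec_eq_zero_iff]
    refine ⟨Fin.cons (-∑ c, h c * v c) h, ?_, ?_⟩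
    · intro h0
      refine hne (funext fun c => ?_)
      have := congrFun h0 c.succ
      simpa using this
    · funext i
      have h1 := hw i
      unfold lf at h1
      simp only [Matrix.mulVec, dotProduct, Matrix.of_apply, Pi.zero_apply]
      rw [Fin.sum_univ_succ]
      simp only [Fin.val_zero, pow_zero, Fin.cons_zero, Fin.val_succ, Fin.cons_succ, al]
      rw [mul_zero, add_zero, one_mul, ← h1, ← Finset.sum_neg_distrib, ← Finset.sum_add_distrib]
      refine Finset.sum_congr rfl fun c _ => ?_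
      simp only [PiLp.add_apply, PiLp.smul_apply, smul_eq_mul, mc_apply]
      ring
  have hmem : s ∈ ⋃ j, ⋃ w : Fin (d + 1) ↪ I j, {s | (P j w).IsRoot s} := by
    rw [mem_iUnion]
    refine ⟨j, ?_⟩
    rw [mem_iUnion]
    exact ⟨w, hroot⟩
  exact absurd (hS0 hmem) (not_le.mpr hs)

/-- **Homogeneous selection for classes of arbitrary sizes**, dimension `m + 1`. -/
theorem homogeneous_selection (m : ℕ) : ∃ c : ℝ, 0 < c ∧
    ∀ C : Fin (m + 1 + 1) → Finset (E (m + 1)), (∀ j, (C j).Nonempty) →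
      ∃ (p : E (m + 1)) (D : Fin (m + 1 + 1) → Finset (E (m + 1))),
        (∀ j, D j ⊆ C j ∧ c * ((C j).card : ℝ) ≤ ((D j).card : ℝ)) ∧
        ∀ x : Fin (m + 1 + 1) → E (m + 1), (∀ j, x j ∈ D j) → p ∈ convexHull ℝ (Set.range x) := by
  classical
  obtain ⟨c, hc, N0, hN0, hgen⟩ := generic m
  refine ⟨c, hc, ?_⟩
  intro C hC
  let I : Fin (m + 1 + 1) → Type := fun j => ↥(C j) × Fin N0
  have hne : ∀ j, Nonempty (I j) := by
    intro j
    obtain ⟨x, hx⟩ := hC j
    exact ⟨(⟨x, hx⟩, ⟨0, hN0⟩)⟩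
  let a : ∀ j, I j → E (m + 1) := fun j z => (z.1 : E (m + 1))
  let t : ∀ j, I j → ℝ := fun j z => ((Fintype.equivFin (I j) z : ℕ) : ℝ)
  have ht : ∀ j, Function.Injective (t j) := by
    intro j z z' h
    have h1 : ((Fintype.equivFin (I j) z : ℕ) : ℝ) = ((Fintype.equivFin (I j) z' : ℕ) : ℝ) := h
    have h2 : (Fintype.equivFin (I j) z : ℕ) = (Fintype.equivFin (I j) z' : ℕ) := by
      exact_mod_cast h1
    exact (Fintype.equivFin (I j)).injective (Fin.ext h2)
  have hIcard : ∀ j, Fintype.card (I j) = (C j).card * N0 := by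
    intro j
    rw [Fintype.card_prod, Fintype.card_coe, Fintype.card_fin]
  obtain ⟨S0, hS0⟩ := exists_gen a t ht
  let s : ℕ → ℝ := fun k => |S0| + 1 + k
  have hs0 : ∀ k, 1 ≤ s k := by
    intro k
    have h1 := abs_nonneg S0
    have h2 : (0 : ℝ) ≤ k := Nat.cast_nonneg k
    show 1 ≤ |S0| + 1 + k
    linarith
  have hs1 : ∀ k, S0 < s k := by
    intro k
    have h1 := le_abs_self S0
    have h2 : (0 : ℝ) ≤ k := Nat.cast_nonneg k
    show S0 < |S0| + 1 + k
    linarith
  have hs2 : Tendsto s atTop atTop :=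
    tendsto_atTop_add_const_left _ _ tendsto_natCast_atTop_atTop
  choose v D hD1 hD2 using fun k => hgen I (fun j z => s k • a j z + mc (m + 1) (t j z))
    (hS0 (s k) (hs1 k)) (by
      intro j
      rw [hIcard]
      exact Nat.le_mul_of_pos_left _ (Finset.card_pos.mpr (hC j)))
  -- bounds
  obtain ⟨B, hB⟩ : ∃ B : ℝ, ∀ j z, ‖mc (m + 1) (t j z)‖ ≤ B := by
    obtain ⟨B, hB⟩ := (Set.finite_range fun q : Σ j, I j => ‖mc (m + 1) (t q.1 q.2)‖).bddAbove
    exact ⟨B, fun j z => hB ⟨⟨j, z⟩, rfl⟩⟩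
  obtain ⟨A, hA⟩ : ∃ A : ℝ, ∀ j z, ‖a j z‖ ≤ A := by
    obtain ⟨A, hA⟩ := (Set.finite_range fun q : Σ j, I j => ‖a q.1 q.2‖).bddAbove
    exact ⟨A, fun j z => hA ⟨⟨j, z⟩, rfl⟩⟩
  have hB0 : 0 ≤ B := (norm_nonneg _).trans (hB 0 (Classical.choice (hne 0)))
  let p : ℕ → E (m + 1) := fun k => (s k)⁻¹ • v k
  have hpq : ∀ k (x : ∀ j, I j), (∀ j, x j ∈ D k j) →
      ∃ q ∈ cv a x, ‖p k - q‖ ≤ B / s k ∧ ‖q‖ ≤ A := by
    intro k x hx
    have hsk : 0 < s k := by linarith [hs0 k]
    obtain ⟨w, hw0, hw1, hw⟩ := hull_weights _ (hD2 k x hx)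
    refine ⟨∑ j, w j • a j (x j), ?_, ?_, ?_⟩
    · exact (convex_convexHull ℝ _).sum_mem (fun j _ => hw0 j) hw1
        fun j _ => subset_convexHull ℝ _ ⟨j, rfl⟩
    · have h1 : p k - ∑ j, w j • a j (x j) = (s k)⁻¹ • ∑ j, w j • mc (m + 1) (t j (x j)) := by
        show (s k)⁻¹ • v k - _ = _
        rw [← hw]
        have h2 : ∑ j, w j • (s k • a j (x j) + mc (m + 1) (t j (x j)))
            = s k • ∑ j, w j • a j (x j) + ∑ j, w j • mc (m + 1) (t j (x j)) := by
          rw [Finset.smul_sum, ← Finset.sum_add_distrib]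
          refine Finset.sum_congr rfl fun j _ => ?_
          rw [smul_add, smul_comm]
        rw [h2, smul_add, smul_smul, inv_mul_cancel₀ hsk.ne', one_smul]
        abel
      rw [h1, norm_smul, norm_inv, Real.norm_of_nonneg hsk.le, inv_mul_eq_div]
      refine div_le_div_of_nonneg_right ?_ hsk.le
      refine (norm_sum_le _ _).trans ?_
      calc ∑ j, ‖w j • mc (m + 1) (t j (x j))‖ ≤ ∑ j, w j * B := by
            refine Finset.sum_le_sum fun j _ => ?_
            rw [norm_smul, Real.norm_of_nonneg (hw0 j)]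
            exact mul_le_mul_of_nonneg_left (hB _ _) (hw0 j)
        _ = B := by rw [← Finset.sum_mul, hw1, one_mul]
    · refine (norm_sum_le _ _).trans ?_
      calc ∑ j, ‖w j • a j (x j)‖ ≤ ∑ j, w j * A := by
            refine Finset.sum_le_sum fun j _ => ?_
            rw [norm_smul, Real.norm_of_nonneg (hw0 j)]
            exact mul_le_mul_of_nonneg_left (hA _ _) (hw0 j)
        _ = A := by rw [← Finset.sum_mul, hw1, one_mul]
  have hDne : ∀ k j, (D k j).Nonempty := by
    intro k j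
    rw [← Finset.card_pos]
    have h1 := hD1 k j
    have h2 : (0 : ℝ) < Fintype.card (I j) := by exact_mod_cast Fintype.card_pos
    have h3 : (0 : ℝ) < (D k j).card := lt_of_lt_of_le (mul_pos hc h2) h1
    exact_mod_cast h3
  have hbd : ∀ k, p k ∈ Metric.closedBall (0 : E (m + 1)) (A + B) := by
    intro k
    obtain ⟨q, -, hq1, hq2⟩ := hpq k (fun j => (hDne k j).choose) fun j => (hDne k j).choose_spec
    rw [mem_closedBall_zero_iff]
    have hsk : 0 < s k := by linarith [hs0 k]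
    have h1 : B / s k ≤ B := by
      rw [div_le_iff₀ hsk]
      nlinarith [hs0 k]
    calc ‖p k‖ = ‖q + (p k - q)‖ := by rw [add_sub_cancel]
      _ ≤ ‖q‖ + ‖p k - q‖ := norm_add_le _ _
      _ ≤ A + B := by linarith
  -- a constant subsequence
  obtain ⟨D0, hD0⟩ := Finite.exists_infinite_fiber D
  have hinf : (D ⁻¹' {D0}).Infinite := Set.infinite_coe_iff.mp hD0
  let φ : ℕ → ℕ := Nat.nth fun k => D k = D0
  have hinf' : {k | D k = D0}.Infinite := hinf
  have hφ : StrictMono φ := Nat.nth_strictMono hinf'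
  have hφD : ∀ k, D (φ k) = D0 := fun k => Nat.nth_mem_of_infinite hinf' k
  obtain ⟨pl, -, ψ, hψ, hlim⟩ := tendsto_subseq_of_bounded Metric.isBounded_closedBall
    (fun k => hbd (φ k))
  have hpl : ∀ x : ∀ j, I j, (∀ j, x j ∈ D0 j) → pl ∈ cv a x := by
    intro x hx
    have hcl := cv_closed a x
    have hcne : (cv a x).Nonempty := ⟨a 0 (x 0), subset_convexHull ℝ _ ⟨0, rfl⟩⟩
    have h1 : Tendsto (fun k => Metric.infDist (p (φ (ψ k))) (cv a x)) atTop
        (𝓝 (Metric.infDist pl (cv a x))) :=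
      ((Metric.continuous_infDist_pt _).tendsto pl).comp hlim
    have h2 : Tendsto (fun k => B / s (φ (ψ k))) atTop (𝓝 0) :=
      Tendsto.div_atTop tendsto_const_nhds
        (hs2.comp (hφ.tendsto_atTop.comp hψ.tendsto_atTop))
    have h3 : Metric.infDist pl (cv a x) ≤ 0 := by
      refine le_of_tendsto_of_tendsto' h1 h2 fun k => ?_
      obtain ⟨q, hq, hq1, -⟩ := hpq (φ (ψ k)) x (by
        intro j
        rw [hφD]
        exact hx j)
      refine (Metric.infDist_le_dist_of_mem hq).trans ?_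
      rw [dist_eq_norm]
      exact hq1
    have h4 : Metric.infDist pl (cv a x) = 0 := le_antisymm h3 Metric.infDist_nonneg
    exact (hcl.mem_iff_infDist_zero hcne).mpr h4
  have hD0c : ∀ j, c * Fintype.card (I j) ≤ (D0 j).card := by
    intro j
    have := hD1 (φ 0) j
    rwa [hφD] at this
  refine ⟨pl, fun j => (D0 j).image fun z => (z.1 : E (m + 1)), fun j => ⟨?_, ?_⟩, ?_⟩
  · intro y hy
    rw [Finset.mem_image] at hy
    obtain ⟨z, -, rfl⟩ := hy
    exact z.1.2
  · have h1 : (D0 j).card ≤ N0 * ((D0 j).image fun z => (z.1 : E (m + 1))).card := by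
      refine Finset.card_le_mul_card_image _ _ fun y _ => ?_
      have h2 : ((D0 j).filter fun z => (z.1 : E (m + 1)) = y).card
          ≤ (Finset.univ : Finset (Fin N0)).card := by
        refine Finset.card_le_card_of_injOn (fun z => z.2) (fun z _ => Finset.mem_univ _) ?_
        intro z hz z' hz' h
        simp only [Finset.coe_filter, Set.mem_ofPred_eq] at hz hz'
        exact Prod.ext (Subtype.ext (hz.2.trans hz'.2.symm)) h
      rwa [Finset.card_univ, Fintype.card_fin] at h2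
    have h3 := hD0c j
    rw [hIcard, Nat.cast_mul] at h3
    have h4 : ((D0 j).card : ℝ) ≤ N0 * (((D0 j).image fun z => (z.1 : E (m + 1))).card : ℝ) := by
      exact_mod_cast h1
    have h5 : (0 : ℝ) < N0 := by exact_mod_cast hN0
    have h6 : c * ((C j).card : ℝ) * N0
        ≤ (((D0 j).image fun z => (z.1 : E (m + 1))).card : ℝ) * N0 := by
      calc c * ((C j).card : ℝ) * N0 = c * ((C j).card * N0) := by ring
        _ ≤ (D0 j).card := h3
        _ ≤ _ := h4
        _ = _ := by ring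
    exact le_of_mul_le_mul_right h6 h5
  · intro x hx
    choose z hz1 hz2 using fun j => Finset.mem_image.mp (hx j)
    have h1 := hpl z hz1
    have h2 : (fun j => a j (z j)) = x := funext hz2
    unfold cv at h1
    rw [h2] at h1
    exact h1

end Pool.Agent.Zk96.HSel
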