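import Pool.Agent.Helper325.BorsukUlam

/-!
A ham sandwich theorem for finite families of vectors and linear hyperplanes.
-/

set_option autoImplicit false

namespace Pool.Agent.Zk96.HSel

open Set Filter Topology
open scoped BigOperators
open Pool.Agent.Helper325.BorsukUlam (borsuk_ulam K_compact)

/-- the clamp function -/
noncomputable def cl (k : ℕ) (t : ℝ) : ℝ := max (-1) (min 1 ((k + 1) * t))

theorem cl_neg (k : ℕ) (t : ℝ) : cl k (-t) = -cl k t := by
  unfold cl
  rw [mul_neg]
  set u := ((k : ℝ) + 1) * t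
  rcases le_total u 1 with h1 | h1 <;> rcases le_total (-1) u with h2 | h2
  · rw [min_eq_right h1, max_eq_right h2, min_eq_right (by linarith), max_eq_right (by linarith)]
  · rw [min_eq_right h1, max_eq_left h2, min_eq_left (by linarith), max_eq_right (by norm_num)]
    norm_num
  · rw [min_eq_left h1, min_eq_right (show -u ≤ 1 by linarith),
      max_eq_left (show -u ≤ -1 by linarith), max_eq_right (show (-1 : ℝ) ≤ 1 by norm_num)]
  · linarith

theorem cl_ge (k : ℕ) (t : ℝ) : -1 ≤ cl k t := le_max_left _ _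

theorem cl_le (k : ℕ) (t : ℝ) : cl k t ≤ 1 := max_le (by norm_num) (min_le_left _ _)

theorem cl_cont (k : ℕ) : Continuous (cl k) := by
  unfold cl
  fun_prop

theorem cl_one {k : ℕ} {t : ℝ} (h : 1 ≤ (k + 1) * t) : cl k t = 1 := by
  unfold cl
  rw [min_eq_left h, max_eq_right (by norm_num)]

open Classical in
theorem ham_sandwich (m : ℕ) (Z : Fin m → Type) [∀ i, Fintype (Z i)]
    (b : ∀ i, Z i → Fin (m + 1) → ℝ) :
    ∃ h : Fin (m + 1) → ℝ, h ≠ 0 ∧
      (∀ i, 2 * (Finset.univ.filter fun z => 0 < ∑ c, h c * b i z c).card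
        ≤ Fintype.card (Z i)) ∧
      (∀ i, 2 * (Finset.univ.filter fun z => ∑ c, h c * b i z c < 0).card
        ≤ Fintype.card (Z i)) := by
  let L : (Fin (m + 1) → ℝ) → (Fin (m + 1) → ℝ) → ℝ := fun h u => ∑ c, h c * u c
  have hLc : ∀ u, Continuous fun h => L h u := by
    intro u
    show Continuous fun h : Fin (m + 1) → ℝ => ∑ c, h c * u c
    fun_prop
  have hLn : ∀ h u, L (-h) u = -L h u := by
    intro h u
    show ∑ c, (-h) c * u c = -∑ c, h c * u c
    rw [← Finset.sum_neg_distrib]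
    refine Finset.sum_congr rfl fun c _ => ?_
    rw [Pi.neg_apply]; ring
  let f : ℕ → (Fin (m + 1) → ℝ) → (Fin m → ℝ) := fun k h i => ∑ z, cl k (L h (b i z))
  have hfc : ∀ k, Continuous (f k) := by
    intro k
    refine continuous_pi fun i => continuous_finsetSum _ fun z _ => ?_
    exact (cl_cont k).comp (hLc _)
  have hfo : ∀ k h, f k (-h) = -f k h := by
    intro k h
    funext i
    show ∑ z, cl k (L (-h) (b i z)) = -∑ z, cl k (L h (b i z))
    rw [← Finset.sum_neg_distrib]
    refine Finset.sum_congr rfl fun z _ => ?_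
    rw [hLn, cl_neg]
  choose hk hkK hk0 using fun k => borsuk_ulam m (f k) (hfc k) (hfo k)
  obtain ⟨h, hK, φ, hφ, hlim⟩ := (K_compact m).tendsto_subseq hkK
  -- the main estimate
  have key : ∀ (s : ℝ), (s = 1 ∨ s = -1) → ∀ i,
      2 * (Finset.univ.filter fun z => 0 < s * L h (b i z)).card ≤ Fintype.card (Z i) := by
    intro s hs i
    have hlimL : ∀ z, Tendsto (fun k => s * L (hk (φ k)) (b i z)) atTop (𝓝 (s * L h (b i z))) :=
      fun z => (((hLc (b i z)).tendsto h).comp hlim).const_mul s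
    have hev : ∀ z, 0 < s * L h (b i z) →
        ∀ᶠ k in atTop, cl (φ k) (s * L (hk (φ k)) (b i z)) = 1 := by
      intro z hz
      have h1 : ∀ᶠ k in atTop, s * L h (b i z) / 2 < s * L (hk (φ k)) (b i z) :=
        (hlimL z).eventually_const_lt (by linarith)
      have h2 : ∀ᶠ k : ℕ in atTop, 2 / (s * L h (b i z)) ≤ (φ k : ℝ) := by
        have : Tendsto (fun k => ((φ k : ℕ) : ℝ)) atTop atTop :=
          tendsto_natCast_atTop_atTop.comp hφ.tendsto_atTop
        exact this.eventually_ge_atTop _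
      filter_upwards [h1, h2] with k hk1 hk2
      refine cl_one ?_
      rw [div_le_iff₀ hz] at hk2
      have h3 : 0 ≤ (φ k : ℝ) := Nat.cast_nonneg _
      nlinarith
    have hev' : ∀ᶠ k in atTop, ∀ z ∈ (Finset.univ.filter fun z => 0 < s * L h (b i z)),
        cl (φ k) (s * L (hk (φ k)) (b i z)) = 1 := by
      rw [Finset.eventually_all]
      intro z hz
      rw [Finset.mem_filter] at hz
      exact hev z hz.2
    obtain ⟨k, hkk⟩ := hev'.exists
    have hsum : ∑ z, cl (φ k) (s * L (hk (φ k)) (b i z)) = 0 := by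
      have h0 : ∑ z, cl (φ k) (L (hk (φ k)) (b i z)) = 0 := congrFun (hk0 (φ k)) i
      rcases hs with rfl | rfl
      · simpa using h0
      · rw [← neg_zero, ← h0, ← Finset.sum_neg_distrib]
        refine Finset.sum_congr rfl fun z _ => ?_
        rw [neg_one_mul, cl_neg]
    set P := Finset.univ.filter fun z => 0 < s * L h (b i z) with hP
    have h1 : ∑ z ∈ P, cl (φ k) (s * L (hk (φ k)) (b i z)) = P.card := by
      rw [Finset.sum_congr rfl hkk]
      simp
    have h2 : -((Pᶜ).card : ℝ) ≤ ∑ z ∈ Pᶜ, cl (φ k) (s * L (hk (φ k)) (b i z)) := by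
      have : ∑ z ∈ Pᶜ, (-1 : ℝ) ≤ ∑ z ∈ Pᶜ, cl (φ k) (s * L (hk (φ k)) (b i z)) :=
        Finset.sum_le_sum fun z _ => cl_ge _ _
      simpa using this
    have h3 := Finset.sum_add_sum_compl P fun z => cl (φ k) (s * L (hk (φ k)) (b i z))
    rw [h1, hsum] at h3
    have h4 : (P.card : ℝ) ≤ (Pᶜ).card := by linarith
    have h5 : P.card ≤ (Pᶜ).card := by exact_mod_cast h4
    have h6 := Finset.card_add_card_compl P
    omega
  refine ⟨h, ?_, ?_, ?_⟩
  · rintro rfl
    have : ∑ i : Fin (m + 1), |(0 : Fin (m + 1) → ℝ) i| = 1 := hK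
    simp at this
  · intro i
    have h1 := key 1 (Or.inl rfl) i
    simpa [L] using h1
  · intro i
    have h1 := key (-1) (Or.inr rfl) i
    simpa [L] using h1

end Pool.Agent.Zk96.HSel
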