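import Pool.Agent.Zk96.HSel.Sel
import Pool.Agent.Zk96.HSel.Ham

/-!
Subsets of the classes all of whose transversals contain `v` or none does.
-/

set_option autoImplicit false

namespace Pool.Agent.Zk96.HSel

open Set
open scoped BigOperators

/-- the sign of a boolean -/
def sg (b : Bool) : ℝ := if b then 1 else -1

theorem sg_cases (b : Bool) : sg b = 1 ∨ sg b = -1 := by
  cases b <;> simp [sg]

theorem sg_mul_self (b : Bool) : sg b * sg b = 1 := by
  rcases sg_cases b with h | h <;> rw [h] <;> norm_num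

variable {d : ℕ} {I : Fin (d + 1) → Type}

/-- a linear form -/
noncomputable def lf (h : Fin d → ℝ) (a : ∀ j, I j → E d) (v : E d) (j : Fin (d + 1))
    (z : I j) : ℝ := ∑ c, h c * (a j z c - v c)

/-- The classes other than `j0` are on prescribed sides of a hyperplane through `v`. -/
def Sep (a : ∀ j, I j → E d) (v : E d) (Z : ∀ j, Finset (I j)) (j0 : Fin (d + 1))
    (e : Fin (d + 1) → Bool) : Prop :=
  ∃ h : Fin d → ℝ, ∀ j, j ≠ j0 → ∀ z ∈ Z j, 0 < sg (e j) * lf h a v j z

theorem Sep.mono {a : ∀ j, I j → E d} {v : E d} {Z Z' : ∀ j, Finset (I j)} {j0 : Fin (d + 1)}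
    {e : Fin (d + 1) → Bool} (hS : Sep a v Z j0 e) (h : ∀ j, Z' j ⊆ Z j) : Sep a v Z' j0 e := by
  obtain ⟨f, hf⟩ := hS
  exact ⟨f, fun j hj z hz => hf j hj z (h j hz)⟩

open Classical in
/-- No hyperplane contains more than `d` points of one class. -/
def Gen (a : ∀ j, I j → E d) : Prop :=
  ∀ h : Fin d → ℝ, h ≠ 0 → ∀ v : E d, ∀ j, ∀ Z : Finset (I j),
    (Z.filter fun z => lf h a v j z = 0).card ≤ d

theorem card_attach_filter {α : Type} (s : Finset α) (p : α → Prop) [DecidablePred p] :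
    (Finset.univ.filter fun z : s => p z).card = (s.filter p).card := by
  classical
  refine Finset.card_bij (fun z _ => (z : α)) ?_ ?_ ?_
  · intro z hz
    rw [Finset.mem_filter] at hz ⊢
    exact ⟨z.2, hz.2⟩
  · intro z _ z' _ h
    exact Subtype.ext h
  · intro z hz
    rw [Finset.mem_filter] at hz
    exact ⟨⟨z, hz.1⟩, by rw [Finset.mem_filter]; exact ⟨Finset.mem_univ _, hz.2⟩, rfl⟩

open Classical in
theorem step {m : ℕ} {I : Fin (m + 1 + 1) → Type} (a : ∀ j, I j → E (m + 1)) (hG : Gen a)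
    (v : E (m + 1)) (Z : ∀ j, Finset (I j)) (j0 : Fin (m + 1 + 1))
    (e : Fin (m + 1 + 1) → Bool) :
    ∃ Z' : ∀ j, Finset (I j), (∀ j, Z' j ⊆ Z j) ∧
      (∀ j, (Z j).card ≤ 2 * (Z' j).card + 2 * (m + 1)) ∧ Sep a v Z' j0 e := by
  let J : Fin m → Fin (m + 1 + 1) := fun i => j0.succAbove i.succ
  obtain ⟨h, hne, hpos, hneg⟩ := ham_sandwich m (fun i => (Z (J i) : Finset _))
    (fun i z c => a (J i) z c - v c)
  let A : Fin (m + 1 + 1) → ℝ → ℕ := fun j s => ((Z j).filter fun z => 0 < s * lf h a v j z).card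
  have hsum : ∀ j, (Z j).card ≤ A j 1 + A j (-1) + (m + 1) := by
    intro j
    have h1 : Z j ⊆ ((Z j).filter fun z => 0 < 1 * lf h a v j z) ∪
        ((Z j).filter fun z => 0 < -1 * lf h a v j z) ∪ ((Z j).filter fun z => lf h a v j z = 0) := by
      intro z hz
      simp only [Finset.mem_union, Finset.mem_filter]
      rcases lt_trichotomy (lf h a v j z) 0 with h2 | h2 | h2
      · left; right; exact ⟨hz, by linarith⟩
      · right; exact ⟨hz, h2⟩
      · left; left; exact ⟨hz, by linarith⟩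
    have h2 := Finset.card_le_card h1
    have h3 := Finset.card_union_le (((Z j).filter fun z => 0 < 1 * lf h a v j z) ∪
        ((Z j).filter fun z => 0 < -1 * lf h a v j z)) ((Z j).filter fun z => lf h a v j z = 0)
    have h4 := Finset.card_union_le ((Z j).filter fun z => 0 < 1 * lf h a v j z)
        ((Z j).filter fun z => 0 < -1 * lf h a v j z)
    have h5 := hG h hne v j (Z j)
    have h6 : A j 1 = ((Z j).filter fun z => 0 < 1 * lf h a v j z).card := rfl
    have h7 : A j (-1) = ((Z j).filter fun z => 0 < -1 * lf h a v j z).card := rfl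
    omega
  have hJ1 : ∀ i, 2 * A (J i) 1 ≤ (Z (J i)).card := by
    intro i
    have h1 := hpos i
    rw [card_attach_filter (Z (J i)) (fun z => 0 < ∑ c, h c * (a (J i) z c - v c)),
      Fintype.card_coe] at h1
    have h2 : A (J i) 1 = ((Z (J i)).filter fun z => 0 < ∑ c, h c * (a (J i) z c - v c)).card := by
      show ((Z (J i)).filter fun z => 0 < 1 * lf h a v (J i) z).card = _
      simp only [one_mul]
      rfl
    rw [h2]
    exact h1
  have hJ2 : ∀ i, 2 * A (J i) (-1) ≤ (Z (J i)).card := by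
    intro i
    have h1 := hneg i
    rw [card_attach_filter (Z (J i)) (fun z => ∑ c, h c * (a (J i) z c - v c) < 0),
      Fintype.card_coe] at h1
    have h2 : A (J i) (-1)
        = ((Z (J i)).filter fun z => ∑ c, h c * (a (J i) z c - v c) < 0).card := by
      show ((Z (J i)).filter fun z => 0 < -1 * lf h a v (J i) z).card = _
      simp only [neg_one_mul, Left.neg_pos_iff]
      rfl
    rw [h2]
    exact h1
  have hJ : ∀ i s, (s = 1 ∨ s = -1) → (Z (J i)).card ≤ 2 * A (J i) s + 2 * (m + 1) := by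
    intro i s hs
    have h1 := hsum (J i)
    have h2 := hJ1 i
    have h3 := hJ2 i
    rcases hs with rfl | rfl <;> omega
  -- the remaining class
  let i0 : Fin (m + 1 + 1) := j0.succAbove 0
  obtain ⟨σ, hσ, hσ2⟩ : ∃ σ : ℝ, (σ = 1 ∨ σ = -1) ∧ (Z i0).card ≤ 2 * A i0 σ + 2 * (m + 1) := by
    have h1 := hsum i0
    by_cases h2 : A i0 (-1) ≤ A i0 1
    · exact ⟨1, Or.inl rfl, by omega⟩
    · exact ⟨-1, Or.inr rfl, by omega⟩
  let s : ℝ := σ * sg (e i0)
  have hs : ∀ b, sg b * s = 1 ∨ sg b * s = -1 := by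
    intro b
    show sg b * (σ * sg (e i0)) = 1 ∨ sg b * (σ * sg (e i0)) = -1
    rcases sg_cases b with h1 | h1 <;> rcases hσ with h2 | h2 <;>
      rcases sg_cases (e i0) with h3 | h3 <;> rw [h1, h2, h3] <;> norm_num
  have hs0 : sg (e i0) * s = σ := by
    show sg (e i0) * (σ * sg (e i0)) = σ
    rw [mul_left_comm, sg_mul_self, mul_one]
  refine ⟨fun j => if j = j0 then Z j else (Z j).filter fun z => 0 < sg (e j) * s * lf h a v j z,
    ?_, ?_, ?_⟩
  · intro j
    dsimp only
    split_ifs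
    · exact Finset.Subset.refl _
    · exact Finset.filter_subset _ _
  · intro j
    dsimp only
    split_ifs with hj
    · omega
    · show (Z j).card ≤ 2 * A j (sg (e j) * s) + 2 * (m + 1)
      obtain ⟨i, rfl⟩ := Fin.exists_succAbove_eq hj
      refine Fin.cases ?_ (fun i' => ?_) i
      · show (Z i0).card ≤ 2 * A i0 (sg (e i0) * s) + 2 * (m + 1)
        rw [hs0]
        exact hσ2
      · exact hJ i' _ (hs _)
  · refine ⟨fun c => s * h c, fun j hj z hz => ?_⟩
    dsimp only at hz
    rw [if_neg hj, Finset.mem_filter] at hz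
    have h1 : lf (fun c => s * h c) a v j z = s * lf h a v j z := by
      unfold lf
      rw [Finset.mul_sum]
      exact Finset.sum_congr rfl fun c _ => by ring
    rw [h1, ← mul_assoc]
    exact hz.2

theorem iter {m : ℕ} {I : Fin (m + 1 + 1) → Type} (a : ∀ j, I j → E (m + 1)) (hG : Gen a)
    (v : E (m + 1)) (Y : ∀ j, Finset (I j))
    (S : Finset (Fin (m + 1 + 1) × (Fin (m + 1 + 1) → Bool))) :
    ∃ Z : ∀ j, Finset (I j), (∀ j, Z j ⊆ Y j) ∧
      (∀ j, (Y j).card ≤ 2 ^ S.card * ((Z j).card + 2 * (m + 1))) ∧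
      ∀ q ∈ S, Sep a v Z q.1 q.2 := by
  classical
  induction S using Finset.induction_on with
  | empty =>
    refine ⟨Y, fun j => Finset.Subset.refl _, fun j => ?_, fun q hq => ?_⟩
    · rw [Finset.card_empty, pow_zero, one_mul]
      omega
    · exact absurd hq (Finset.notMem_empty _)
  | insert q S hq ih =>
    obtain ⟨Z, h1, h2, h3⟩ := ih
    obtain ⟨Z', g1, g2, g3⟩ := step a hG v Z q.1 q.2
    refine ⟨Z', fun j => (g1 j).trans (h1 j), fun j => ?_, ?_⟩
    · rw [Finset.card_insert_of_notMem hq, pow_succ]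
      calc (Y j).card ≤ 2 ^ S.card * ((Z j).card + 2 * (m + 1)) := h2 j
        _ ≤ 2 ^ S.card * (2 * ((Z' j).card + 2 * (m + 1))) := by
          refine Nat.mul_le_mul_left _ ?_
          have := g2 j
          omega
        _ = 2 ^ S.card * 2 * ((Z' j).card + 2 * (m + 1)) := by ring
    · intro q' hq'
      rw [Finset.mem_insert] at hq'
      rcases hq' with rfl | hq'
      · exact g3
      · exact (h3 q' hq').mono g1

/-! ### all transversals or none -/

/-- positive dependence of the vectors `x_j - v` -/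
def PosDep (a : ∀ j, I j → E d) (v : E d) (x : ∀ j, I j) : Prop :=
  ∃ l : Fin (d + 1) → ℝ, (∀ j, 0 < l j) ∧ ∀ c, ∑ j, l j * (a j (x j) c - v c) = 0

theorem lf_sum (h : Fin d → ℝ) (a : ∀ j, I j → E d) (v : E d) (x : ∀ j, I j)
    (l : Fin (d + 1) → ℝ) (hl : ∀ c, ∑ j, l j * (a j (x j) c - v c) = 0) :
    ∑ j, l j * lf h a v j (x j) = 0 := by
  unfold lf
  have h1 : ∀ j, l j * ∑ c, h c * (a j (x j) c - v c)
      = ∑ c, h c * (l j * (a j (x j) c - v c)) := by
    intro j
    rw [Finset.mul_sum]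
    exact Finset.sum_congr rfl fun c _ => by ring
  rw [Finset.sum_congr rfl fun j _ => h1 j, Finset.sum_comm]
  refine Finset.sum_eq_zero fun c _ => ?_
  rw [← Finset.mul_sum, hl c, mul_zero]

theorem dep_zero {a : ∀ j, I j → E d} {v : E d} {Z : ∀ j, Finset (I j)}
    (hS : ∀ j0 e, Sep a v Z j0 e) {x : ∀ j, I j} (hx : ∀ j, x j ∈ Z j)
    {l : Fin (d + 1) → ℝ} (hl : ∀ c, ∑ j, l j * (a j (x j) c - v c) = 0) {j0 : Fin (d + 1)}
    (h0 : l j0 = 0) (j : Fin (d + 1)) : l j = 0 := by
  classical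
  obtain ⟨h, hh⟩ := hS j0 fun j => decide (0 ≤ l j)
  have h1 := lf_sum h a v x l hl
  have h2 : ∀ j, 0 ≤ l j * lf h a v j (x j) := by
    intro j
    by_cases hj : j = j0
    · rw [hj, h0, zero_mul]
    · have h3 := hh j hj (x j) (hx j)
      by_cases h4 : 0 ≤ l j
      · simp only [h4, decide_true, sg, if_true, one_mul] at h3
        exact mul_nonneg h4 h3.le
      · simp only [h4, decide_false, sg] at h3
        have h5 : lf h a v j (x j) < 0 := by simpa using h3
        exact mul_nonneg_of_nonpos_of_nonpos (not_le.mp h4).le h5.le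
  rw [Finset.sum_eq_zero_iff_of_nonneg fun j _ => h2 j] at h1
  by_cases hj : j = j0
  · rw [hj, h0]
  · have h3 := hh j hj (x j) (hx j)
    have h4 := h1 j (Finset.mem_univ _)
    rcases mul_eq_zero.mp h4 with h5 | h5
    · exact h5
    · rw [h5, mul_zero] at h3
      exact absurd h3 (lt_irrefl _)

theorem exists_dep (u : Fin (d + 1) → E d) :
    ∃ l : Fin (d + 1) → ℝ, (∀ c, ∑ j, l j * u j c = 0) ∧ ∃ j, l j ≠ 0 := by
  have h1 : ¬ LinearIndependent ℝ u := by
    intro h
    have := h.fintype_card_le_finrank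
    rw [Fintype.card_fin, finrank_euclideanSpace, Fintype.card_fin] at this
    omega
  rw [Fintype.not_linearIndependent_iff] at h1
  obtain ⟨g, hg, hg'⟩ := h1
  refine ⟨g, fun c => ?_, hg'⟩
  have h2 := congrArg (fun w : E d => w c) hg
  simp only [WithLp.ofLp_sum, Finset.sum_apply] at h2
  simpa using h2

theorem posDep_update {a : ∀ j, I j → E d} {v : E d} {Z : ∀ j, Finset (I j)}
    (hS : ∀ j0 e, Sep a v Z j0 e) {x x' : ∀ j, I j} (hx : ∀ j, x j ∈ Z j)
    (hx' : ∀ j, x' j ∈ Z j) (k : Fin (d + 1)) (hxx : ∀ j, j ≠ k → x' j = x j)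
    (hP : PosDep a v x) : PosDep a v x' := by
  classical
  obtain ⟨l, hl0, hl⟩ := hP
  obtain ⟨μ0, hμ0, j1, hj1⟩ := exists_dep fun j => a j (x' j) - v
  have hμ0' : ∀ c, ∑ j, μ0 j * (a j (x' j) c - v c) = 0 := hμ0
  have hne : ∀ j, μ0 j ≠ 0 := by
    intro j hj
    exact hj1 (dep_zero hS hx' hμ0' hj j1)
  obtain ⟨μ, hμ, hμne, hμk⟩ : ∃ μ : Fin (d + 1) → ℝ,
      (∀ c, ∑ j, μ j * (a j (x' j) c - v c) = 0) ∧ (∀ j, μ j ≠ 0) ∧ 0 < μ k := by
    rcases lt_or_gt_of_ne (hne k) with h | h
    · refine ⟨fun j => -μ0 j, fun c => ?_, fun j => neg_ne_zero.mpr (hne j), by linarith⟩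
      rw [← neg_zero, ← hμ0' c, ← Finset.sum_neg_distrib]
      exact Finset.sum_congr rfl fun j _ => by ring
    · exact ⟨μ0, hμ0', hne, h⟩
  refine ⟨μ, fun i => ?_, hμ⟩
  by_contra hi
  have hi' : μ i < 0 := lt_of_le_of_ne (not_lt.mp hi) (hμne i)
  have hik : i ≠ k := by
    rintro rfl
    linarith
  set α := -μ i with hα
  set β := l i with hβ
  have hα0 : 0 < α := by linarith
  have hβ0 : 0 < β := hl0 i
  obtain ⟨h, hh⟩ := hS i fun j => if j = k then true else decide (0 ≤ α * l j + β * μ j)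
  have h1 := lf_sum h a v x l hl
  have h2 := lf_sum h a v x' μ hμ
  have h3 : ∑ j, (α * (l j * lf h a v j (x j)) + β * (μ j * lf h a v j (x' j))) = 0 := by
    rw [Finset.sum_add_distrib, ← Finset.mul_sum, ← Finset.mul_sum, h1, h2]
    ring
  have hk1 : 0 < lf h a v k (x k) := by
    have := hh k hik.symm (x k) (hx k)
    simpa [sg] using this
  have hk2 : 0 < lf h a v k (x' k) := by
    have := hh k hik.symm (x' k) (hx' k)
    simpa [sg] using this
  have hlk := hl0 k
  have h4 : ∀ j, 0 ≤ α * (l j * lf h a v j (x j)) + β * (μ j * lf h a v j (x' j)) := by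
    intro j
    by_cases hj : j = k
    · subst hj
      positivity
    · rw [hxx j hj]
      have h5 : α * (l j * lf h a v j (x j)) + β * (μ j * lf h a v j (x j))
          = (α * l j + β * μ j) * lf h a v j (x j) := by ring
      rw [h5]
      by_cases hji : j = i
      · have h6 : α * l j + β * μ j = 0 := by
          rw [hji, hα, hβ]; ring
        rw [h6, zero_mul]
      · have h6 := hh j hji (x j) (hx j)
        dsimp only at h6
        rw [if_neg hj] at h6
        by_cases h7 : 0 ≤ α * l j + β * μ j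
        · simp only [h7, decide_true, sg, if_true, one_mul] at h6
          exact mul_nonneg h7 h6.le
        · simp only [h7, decide_false, sg] at h6
          have h8 : lf h a v j (x j) < 0 := by simpa using h6
          exact mul_nonneg_of_nonpos_of_nonpos (not_le.mp h7).le h8.le
  rw [Finset.sum_eq_zero_iff_of_nonneg fun j _ => h4 j] at h3
  have h5 := h3 k (Finset.mem_univ _)
  have h6 : 0 < α * (l k * lf h a v k (x k)) + β * (μ k * lf h a v k (x' k)) := by positivity
  linarith

theorem posDep_all {a : ∀ j, I j → E d} {v : E d} {Z : ∀ j, Finset (I j)}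
    (hS : ∀ j0 e, Sep a v Z j0 e) {x x' : ∀ j, I j} (hx : ∀ j, x j ∈ Z j)
    (hx' : ∀ j, x' j ∈ Z j) (hP : PosDep a v x) : PosDep a v x' := by
  classical
  have key : ∀ S : Finset (Fin (d + 1)), PosDep a v fun j => if j ∈ S then x' j else x j := by
    intro S
    induction S using Finset.induction_on with
    | empty => simpa using hP
    | insert k S hk ih =>
      refine posDep_update hS (x := fun j => if j ∈ S then x' j else x j) ?_ ?_ k ?_ ih
      · intro j
        split_ifs
        · exact hx' j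
        · exact hx j
      · intro j
        split_ifs
        · exact hx' j
        · exact hx j
      · intro j hj
        simp only [Finset.mem_insert, hj, false_or]
  have := key Finset.univ
  simpa using this

theorem hull_weights {ι : Type} [Fintype ι] (f : ι → E d) {y : E d}
    (hy : y ∈ convexHull ℝ (Set.range f)) :
    ∃ w : ι → ℝ, (∀ i, 0 ≤ w i) ∧ ∑ i, w i = 1 ∧ ∑ i, w i • f i = y := by
  classical
  let T : (ι → ℝ) → E d := fun w => ∑ i, w i • f i
  have hT : IsLinearMap ℝ T := by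
    constructor
    · intro w w'
      show ∑ i, (w i + w' i) • f i = _
      rw [← Finset.sum_add_distrib]
      exact Finset.sum_congr rfl fun i _ => add_smul _ _ _
    · intro c w
      show ∑ i, (c * w i) • f i = c • ∑ i, w i • f i
      rw [Finset.smul_sum]
      exact Finset.sum_congr rfl fun i _ => mul_smul _ _ _
  have h1 : Convex ℝ (T '' stdSimplex ℝ ι) := (convex_stdSimplex ℝ ι).is_linear_image hT
  have h2 : Set.range f ⊆ T '' stdSimplex ℝ ι := by
    rintro _ ⟨i, rfl⟩
    refine ⟨Pi.single i 1, single_mem_stdSimplex ℝ i, ?_⟩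
    show ∑ i', (Pi.single i (1 : ℝ) : ι → ℝ) i' • f i' = f i
    rw [Finset.sum_eq_single i]
    · rw [Pi.single_eq_same, one_smul]
    · intro i' _ hi'
      rw [Pi.single_eq_of_ne hi', zero_smul]
    · intro h
      exact absurd (Finset.mem_univ _) h
  obtain ⟨w, ⟨hw0, hw1⟩, hw⟩ := convexHull_min h2 h1 hy
  exact ⟨w, hw0, hw1, hw⟩

theorem posDep_of_mem {a : ∀ j, I j → E d} {v : E d} {Z : ∀ j, Finset (I j)}
    (hS : ∀ j0 e, Sep a v Z j0 e) {x : ∀ j, I j} (hx : ∀ j, x j ∈ Z j) (hv : v ∈ cv a x) :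
    PosDep a v x := by
  obtain ⟨w, hw0, hw1, hw⟩ := hull_weights _ hv
  have h1 : ∀ c, ∑ j, w j * (a j (x j) c - v c) = 0 := by
    intro c
    have h2 : ∑ j, w j * a j (x j) c = v c := by
      have h3 := congrArg (fun u : E d => u c) hw
      simp only [WithLp.ofLp_sum, Finset.sum_apply] at h3
      simpa using h3
    have h4 : ∑ j, w j * (a j (x j) c - v c) = ∑ j, w j * a j (x j) c - (∑ j, w j) * v c := by
      rw [Finset.sum_mul, ← Finset.sum_sub_distrib]
      exact Finset.sum_congr rfl fun j _ => by ring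
    rw [h4, h2, hw1]
    ring
  refine ⟨w, fun j => ?_, h1⟩
  refine lt_of_le_of_ne (hw0 j) fun h0 => ?_
  have h2 : ∀ i, w i = 0 := fun i => dep_zero hS hx h1 h0.symm i
  rw [Finset.sum_congr rfl fun i _ => h2 i] at hw1
  simp at hw1

theorem mem_of_posDep {a : ∀ j, I j → E d} {v : E d} {x : ∀ j, I j} (hP : PosDep a v x) :
    v ∈ cv a x := by
  obtain ⟨l, hl0, hl⟩ := hP
  have hΛ : 0 < ∑ j, l j := Finset.sum_pos (fun j _ => hl0 j) Finset.univ_nonempty
  have h1 : v = ∑ j, (l j / ∑ i, l i) • a j (x j) := by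
    ext c
    simp only [WithLp.ofLp_sum, Finset.sum_apply]
    have h2 := hl c
    have h3 : ∑ j, l j * (a j (x j) c - v c) = ∑ j, l j * a j (x j) c - (∑ j, l j) * v c := by
      rw [Finset.sum_mul, ← Finset.sum_sub_distrib]
      exact Finset.sum_congr rfl fun j _ => by ring
    rw [h3] at h2
    have h4 : ∑ j, ((l j / ∑ i, l i) • a j (x j)) c = (∑ j, l j * a j (x j) c) / ∑ i, l i := by
      rw [Finset.sum_div]
      refine Finset.sum_congr rfl fun j _ => ?_
      simp only [PiLp.smul_apply, smul_eq_mul]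
      ring
    rw [h4, eq_div_iff hΛ.ne']
    linarith
  rw [h1]
  refine (convex_convexHull ℝ _).sum_mem (fun j _ => ?_) ?_ fun j _ => ?_
  · exact div_nonneg (hl0 j).le hΛ.le
  · rw [← Finset.sum_div, div_self hΛ.ne']
  · exact subset_convexHull ℝ _ ⟨j, rfl⟩

end Pool.Agent.Zk96.HSel
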