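import Pool.Agent.Zk96.HSel.CTv

/-!
A point in a positive fraction of the rainbow simplices.
-/

set_option autoImplicit false

namespace Pool.Agent.Zk96.HSel

open Set
open scoped BigOperators

abbrev E (d : ℕ) := EuclideanSpace ℝ (Fin d)

section minnorm

variable {d : ℕ}

theorem exists_minnorm {K : Set (E d)} (hK : IsClosed K) (hne : K.Nonempty) :
    ∃ m ∈ K, ∀ y ∈ K, ‖m‖ ≤ ‖y‖ := by
  obtain ⟨m, hm, h⟩ := hK.exists_infDist_eq_dist hne 0
  refine ⟨m, hm, fun y hy => ?_⟩
  have := Metric.infDist_le_dist_of_mem (x := (0 : E d)) hy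
  rw [h, dist_zero_left, dist_zero_left] at this
  exact this

theorem minnorm_unique {K : Set (E d)} (hK : Convex ℝ K) {x y : E d} (hx : x ∈ K) (hy : y ∈ K)
    (h1 : ∀ z ∈ K, ‖x‖ ≤ ‖z‖) (h2 : ‖y‖ ≤ ‖x‖) : y = x := by
  have hmid : (1 / 2 : ℝ) • x + (1 / 2 : ℝ) • y ∈ K :=
    hK hx hy (by norm_num) (by norm_num) (by norm_num)
  have h3 := h1 _ hmid
  have h4 : ‖(1 / 2 : ℝ) • x + (1 / 2 : ℝ) • y‖ = 1 / 2 * ‖x + y‖ := by
    rw [← smul_add, norm_smul]
    norm_num
  rw [h4] at h3
  have h5 := parallelogram_law_with_norm ℝ x y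
  have h6 : ‖x - y‖ = 0 := by
    have hx0 := norm_nonneg x
    have hy0 := norm_nonneg y
    have hxy0 := norm_nonneg (x + y)
    have hxy1 := norm_nonneg (x - y)
    nlinarith
  rw [norm_eq_zero, sub_eq_zero] at h6
  exact h6.symm

/-- Helly: one of the sets can be omitted without changing the point of minimal norm. -/
theorem helly_min (F : Fin (d + 1) → Set (E d)) (hc : ∀ k, Convex ℝ (F k))
    (hcl : ∀ k, IsClosed (F k)) (hne : (⋂ k, F k).Nonempty) :
    ∃ k, ∀ m' ∈ ⋂ i, F (Fin.succAbove k i),
      (∀ y ∈ ⋂ i, F (Fin.succAbove k i), ‖m'‖ ≤ ‖y‖) → m' ∈ F k := by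
  classical
  obtain ⟨m, hm, hmin⟩ := exists_minnorm (isClosed_iInter hcl) hne
  let G : Option (Fin (d + 1)) → Set (E d) := fun o => match o with
    | none => {x | ‖x‖ < ‖m‖}
    | some k => F k
  have hGc : ∀ o ∈ (Finset.univ : Finset (Option (Fin (d + 1)))), Convex ℝ (G o) := by
    rintro (_ | k) -
    · have h1 : G none = Metric.ball 0 ‖m‖ := by
        ext x
        simp [G]
      rw [h1]
      exact convex_ball _ _
    · exact hc k
  by_contra hcon
  push Not at hcon
  have hall := Convex.helly_theorem' (𝕜 := ℝ) hGc ?_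
  · obtain ⟨x, hx⟩ := hall
    simp only [Finset.mem_univ, iInter_true, mem_iInter] at hx
    have h1 : ‖x‖ < ‖m‖ := hx none
    have h2 : x ∈ ⋂ k, F k := mem_iInter.mpr fun k => hx (some k)
    exact absurd (hmin x h2) (not_le.mpr h1)
  · intro J _ hJ
    rw [finrank_euclideanSpace, Fintype.card_fin] at hJ
    have hJ2 : J ≠ Finset.univ := by
      intro h
      rw [h, Finset.card_univ, Fintype.card_option, Fintype.card_fin] at hJ
      omega
    obtain ⟨o, ho⟩ : ∃ o, o ∉ J := by
      by_contra h
      push Not at h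
      exact hJ2 (Finset.eq_univ_iff_forall.mpr h)
    rcases o with _ | k
    · refine ⟨m, ?_⟩
      rw [mem_iInter₂]
      rintro (_ | k) hk
      · exact absurd hk ho
      · exact mem_iInter.mp hm k
    · obtain ⟨m', hm', hmin', hnot⟩ := hcon k
      refine ⟨m', ?_⟩
      have hmm : m ∈ ⋂ i, F (Fin.succAbove k i) :=
        mem_iInter.mpr fun i => mem_iInter.mp hm _
      have hlt : ‖m'‖ < ‖m‖ := by
        by_contra hge
        rw [not_lt] at hge
        have hconv : Convex ℝ (⋂ i, F (Fin.succAbove k i)) := convex_iInter fun i => hc _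
        have heq := minnorm_unique hconv hm' hmm hmin' hge
        rw [← heq] at hnot
        exact hnot (mem_iInter.mp hm k)
      rw [mem_iInter₂]
      rintro (_ | i) hi
      · exact hlt
      · have hik : i ≠ k := by
          rintro rfl
          exact ho hi
        obtain ⟨i', rfl⟩ := Fin.exists_succAbove_eq hik
        exact mem_iInter.mp hm' i'

open Classical in
/-- the point of minimal norm of the intersection -/
noncomputable def mp (T : Fin d → Set (E d)) : E d :=
  if h : ∃ m ∈ ⋂ i, T i, ∀ y ∈ ⋂ i, T i, ‖m‖ ≤ ‖y‖ then h.choose else 0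

theorem mp_spec (F : Fin (d + 1) → Set (E d)) (hc : ∀ k, Convex ℝ (F k))
    (hcl : ∀ k, IsClosed (F k)) (hne : (⋂ k, F k).Nonempty) :
    ∃ k, mp (fun i => F (Fin.succAbove k i)) ∈ F k := by
  obtain ⟨k, hk⟩ := helly_min F hc hcl hne
  refine ⟨k, ?_⟩
  have hne' : (⋂ i, F (Fin.succAbove k i)).Nonempty := by
    obtain ⟨x, hx⟩ := hne
    exact ⟨x, mem_iInter.mpr fun i => mem_iInter.mp hx _⟩
  have h := exists_minnorm (isClosed_iInter fun i => hcl (Fin.succAbove k i)) hne'
  have h1 : mp (fun i => F (Fin.succAbove k i)) = h.choose := dif_pos h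
  rw [h1]
  exact hk _ h.choose_spec.1 h.choose_spec.2

end minnorm

section count

open Classical in
/-- restriction to a subset of the coordinates -/
noncomputable def resEquiv {J : Type} {I : J → Type} {n Q : ℕ} (τ : J → Fin n → Fin Q)
    (hτ : ∀ j, Function.Injective (τ j)) :
    (∀ j, Fin Q → I j) ≃
      (∀ j, Fin n → I j) × (∀ j, {q : Fin Q // q ∉ Set.range (τ j)} → I j) where
  toFun s := (fun j k => s j (τ j k), fun j q => s j q)
  invFun r := fun j q => if h : q ∈ Set.range (τ j) then r.1 j h.choose else r.2 j ⟨q, h⟩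
  left_inv s := by
    funext j q
    by_cases h : q ∈ Set.range (τ j)
    · simp only [h, dif_pos]
      rw [h.choose_spec]
    · simp only [h, dif_neg, not_false_iff]
  right_inv r := by
    refine Prod.ext ?_ ?_
    · funext j k
      have h : τ j k ∈ Set.range (τ j) := ⟨k, rfl⟩
      simp only [h, dif_pos]
      rw [hτ j h.choose_spec]
    · funext j q
      have h := q.2
      simp only [h, dif_neg, not_false_iff]

open Classical in
theorem res_count {J : Type} [Fintype J] [DecidableEq J] {I : J → Type} [∀ j, Fintype (I j)] {n Q : ℕ}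
    (τ : J → Fin n → Fin Q) (hτ : ∀ j, Function.Injective (τ j))
    (P : (∀ j, Fin n → I j) → Prop) :
    (Finset.univ.filter fun s : ∀ j, Fin Q → I j => P fun j k => s j (τ j k)).card
      * Fintype.card (∀ j, Fin n → I j)
    = (Finset.univ.filter P).card * Fintype.card (∀ j, Fin Q → I j) := by
  let C := ∀ j, {q : Fin Q // q ∉ Set.range (τ j)} → I j
  have h1 : Fintype.card (∀ j, Fin Q → I j)
      = Fintype.card (∀ j, Fin n → I j) * Fintype.card C := by
    rw [← Fintype.card_prod]
    exact Fintype.card_congr (resEquiv τ hτ)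
  have h2 : (Finset.univ.filter fun s : ∀ j, Fin Q → I j => P fun j k => s j (τ j k)).card
      = (Finset.univ.filter P).card * Fintype.card C := by
    rw [← Finset.card_univ (α := C), ← Finset.card_product]
    refine Finset.card_bij (fun s _ => resEquiv τ hτ s) ?_ ?_ ?_
    · intro s hs
      simp only [Finset.mem_filter, Finset.mem_univ, true_and] at hs
      simp only [Finset.mem_product, Finset.mem_filter, Finset.mem_univ, true_and, and_true]
      exact hs
    · intro s _ s' _ h
      exact (resEquiv τ hτ).injective h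
    · intro r hr
      simp only [Finset.mem_product, Finset.mem_filter, Finset.mem_univ, true_and,
        and_true] at hr
      refine ⟨(resEquiv τ hτ).symm r, ?_, Equiv.apply_symm_apply _ _⟩
      simp only [Finset.mem_filter, Finset.mem_univ, true_and]
      have h3 : (resEquiv τ hτ ((resEquiv τ hτ).symm r)).1 = r.1 := by
        rw [Equiv.apply_symm_apply]
      have h4 : (resEquiv τ hτ ((resEquiv τ hτ).symm r)).1
          = fun j k => (resEquiv τ hτ).symm r j (τ j k) := rfl
      rw [← h4, h3]
      exact hr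
  rw [h1, h2]
  ring

end count

section selection

variable {d : ℕ} {I : Fin (d + 1) → Type}

/-- the simplex with the given vertices -/
def cv (a : ∀ j, I j → E d) (x : ∀ j, I j) : Set (E d) :=
  convexHull ℝ (Set.range fun j => a j (x j))

theorem cv_convex (a : ∀ j, I j → E d) (x : ∀ j, I j) : Convex ℝ (cv a x) :=
  convex_convexHull ℝ _

theorem cv_closed (a : ∀ j, I j → E d) (x : ∀ j, I j) : IsClosed (cv a x) :=
  (Set.finite_range _).isClosed_convexHull _

open Classical in
theorem many_meet [∀ j, Fintype (I j)] [∀ j, Nonempty (I j)] (a : ∀ j, I j → E d) (p : ℕ)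
    [Fact p.Prime] (hp : d + 1 ≤ p) :
    Fintype.card (∀ j, I j) ^ (d + 1) ≤
      Fintype.card (Fin (d + 1) → ZMod p → Fin (2 * p - 1)) *
      (Finset.univ.filter fun R : Fin (d + 1) → (∀ j, I j) =>
        (⋂ k, cv a (R k)).Nonempty).card := by
  let Q := 2 * p - 1
  let Ω := ∀ j, Fin Q → I j
  let Rs := ∀ j : Fin (d + 1), Fin (d + 1) → I j
  let P : Rs → Prop := fun R => (⋂ k, cv a (fun j => R j k)).Nonempty
  let B := (Finset.univ.filter P).card
  have hB : (Finset.univ.filter fun R : Fin (d + 1) → (∀ j, I j) =>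
        (⋂ k, cv a (R k)).Nonempty).card = B := by
    refine Finset.card_bij (fun R _ => fun j k => R k j) ?_ ?_ ?_
    · intro R hR
      simp only [Finset.mem_filter, Finset.mem_univ, true_and] at hR ⊢
      exact hR
    · intro R _ R' _ h
      funext k j
      exact congrFun (congrFun h j) k
    · intro R hR
      simp only [Finset.mem_filter, Finset.mem_univ, true_and] at hR
      refine ⟨fun k j => R j k, ?_, rfl⟩
      simp only [Finset.mem_filter, Finset.mem_univ, true_and]
      exact hR
  have hRs : Fintype.card Rs = Fintype.card (∀ j, I j) ^ (d + 1) := by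
    have h1 : Fintype.card Rs = Fintype.card (Fin (d + 1) → ∀ j, I j) :=
      Fintype.card_congr (Equiv.piComm fun (j : Fin (d + 1)) (_ : Fin (d + 1)) => I j)
    rw [h1, Fintype.card_fun, Fintype.card_fin]
  have hΩ : 0 < Fintype.card Ω := Fintype.card_pos
  choose σ y hσ hy using fun s : Ω => colored_tverberg p d (fun j k => a j (s j k))
  -- an injection of the index set
  let ι : Fin (d + 1) → ZMod p := fun k => ((k : ℕ) : ZMod p)
  have hι : Function.Injective ι := by
    intro k k' h
    have h1 : ((k : ℕ) : ZMod p) = ((k' : ℕ) : ZMod p) := h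
    rw [ZMod.natCast_eq_natCast_iff'] at h1
    rw [Nat.mod_eq_of_lt (lt_of_lt_of_le k.2 hp), Nat.mod_eq_of_lt (lt_of_lt_of_le k'.2 hp)] at h1
    exact Fin.ext h1
  have hfib : ∀ ρ : Fin (d + 1) → ZMod p → Fin Q,
      (Finset.univ.filter fun s : Ω => σ s = ρ).card * Fintype.card Rs
        ≤ B * Fintype.card Ω := by
    intro ρ
    by_cases hρ : ∀ j, Function.Injective (ρ j)
    · refine le_trans (Nat.mul_le_mul_right _ (Finset.card_le_card ?_))
        (res_count (fun j k => ρ j (ι k)) (fun j => (hρ j).comp hι) P).le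
      intro s hs
      simp only [Finset.mem_filter, Finset.mem_univ, true_and] at hs ⊢
      refine ⟨y s, mem_iInter.mpr fun k => ?_⟩
      have h1 := hy s (ι k)
      rw [hs] at h1
      exact h1
    · have h1 : (Finset.univ.filter fun s : Ω => σ s = ρ) = ∅ := by
        rw [Finset.filter_eq_empty_iff]
        intro s _ h
        exact hρ (h ▸ hσ s)
      rw [h1]
      simp
  have hsum : Fintype.card Ω = ∑ ρ, (Finset.univ.filter fun s : Ω => σ s = ρ).card := by
    rw [← Finset.card_univ]
    exact Finset.card_eq_sum_card_fiberwise fun s _ => Finset.mem_coe.mpr (Finset.mem_univ _)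
  have h2 : Fintype.card Ω * Fintype.card Rs
      ≤ Fintype.card (Fin (d + 1) → ZMod p → Fin Q) * (B * Fintype.card Ω) := by
    calc Fintype.card Ω * Fintype.card Rs
        = ∑ ρ, (Finset.univ.filter fun s : Ω => σ s = ρ).card * Fintype.card Rs := by
          rw [← Finset.sum_mul, ← hsum]
      _ ≤ ∑ _ρ : Fin (d + 1) → ZMod p → Fin Q, B * Fintype.card Ω :=
          Finset.sum_le_sum fun ρ _ => hfib ρ
      _ = _ := by rw [Finset.sum_const, Finset.card_univ, smul_eq_mul]
  rw [hB, ← hRs]
  refine Nat.le_of_mul_le_mul_left ?_ hΩ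
  calc Fintype.card Ω * Fintype.card Rs ≤ _ := h2
    _ = _ := by ring

/-- **Selection lemma**: a point in a positive fraction of the rainbow simplices. -/
theorem selection (d : ℕ) : ∃ K : ℕ, 0 < K ∧ ∀ (I : Fin (d + 1) → Type) [∀ j, Fintype (I j)]
    [∀ j, Nonempty (I j)] (a : ∀ j, I j → E d), ∃ v : E d,
      Nat.card (∀ j, I j) ≤ K * Nat.card {x : ∀ j, I j // v ∈ cv a x} := by
  classical
  obtain ⟨p, hp, hpp⟩ := Nat.exists_infinite_primes (d + 1)
  have := Fact.mk hpp
  let K := Fintype.card (Fin (d + 1) → ZMod p → Fin (2 * p - 1))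
  have hK : 0 < K := by
    have : Nonempty (Fin (2 * p - 1)) := ⟨⟨0, by have := hpp.two_le; omega⟩⟩
    exact Fintype.card_pos
  refine ⟨K * (d + 1), by positivity, ?_⟩
  intro I _ _ a
  by_contra hcon
  push Not at hcon
  set N := Fintype.card (∀ j, I j) with hN
  have hN0 : 0 < N := Fintype.card_pos
  let c : E d → ℕ := fun v => (Finset.univ.filter fun x : ∀ j, I j => v ∈ cv a x).card
  have hc : ∀ v, K * (d + 1) * c v ≤ N - 1 := by
    intro v
    have h1 := hcon v
    rw [Nat.card_eq_fintype_card, Nat.card_eq_fintype_card, Fintype.card_subtype] at h1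
    have h2 : K * (d + 1) * c v < N := h1
    omega
  have hmany := many_meet a p hp
  let good : (Fin (d + 1) → ∀ j, I j) → Prop := fun R => (⋂ k, cv a (R k)).Nonempty
  let gk : Fin (d + 1) → (Fin (d + 1) → ∀ j, I j) → Prop := fun k R =>
    mp (fun i => cv a (R (Fin.succAbove k i))) ∈ cv a (R k)
  have h1 : (Finset.univ.filter good).card ≤ ∑ k, (Finset.univ.filter (gk k)).card := by
    refine le_trans (Finset.card_le_card ?_) Finset.card_biUnion_le
    intro R hR
    simp only [Finset.mem_filter, Finset.mem_univ, true_and] at hR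
    obtain ⟨k, hk⟩ := mp_spec (fun k => cv a (R k)) (fun k => cv_convex a _)
      (fun k => cv_closed a _) hR
    rw [Finset.mem_biUnion]
    exact ⟨k, Finset.mem_univ _, by simp only [Finset.mem_filter, Finset.mem_univ, true_and]; exact hk⟩
  have h2 : ∀ k, (Finset.univ.filter (gk k)).card
      = ∑ T : Fin d → ∀ j, I j, c (mp fun i => cv a (T i)) := by
    intro k
    have h3 : (Finset.univ.filter (gk k)).card = ((Finset.univ : Finset (Fin d → ∀ j, I j)).sigma
        fun T => Finset.univ.filter fun x : ∀ j, I j => mp (fun i => cv a (T i)) ∈ cv a x).card := by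
      refine Finset.card_bij (fun R _ => ⟨fun i => R (Fin.succAbove k i), R k⟩) ?_ ?_ ?_
      · intro R hR
        simp only [Finset.mem_filter, Finset.mem_univ, true_and] at hR
        simp only [Finset.mem_sigma, Finset.mem_filter, Finset.mem_univ, true_and]
        exact hR
      · intro R _ R' _ h
        simp only [Sigma.mk.injEq, heq_eq_eq] at h
        funext i
        by_cases hi : i = k
        · rw [hi]; exact h.2
        · obtain ⟨i', rfl⟩ := Fin.exists_succAbove_eq hi
          exact congrFun h.1 i'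
      · rintro ⟨T, x⟩ hT
        simp only [Finset.mem_sigma, Finset.mem_filter, Finset.mem_univ, true_and] at hT
        refine ⟨Fin.insertNth k x T, ?_, ?_⟩
        · simp only [Finset.mem_filter, Finset.mem_univ, true_and, gk, Fin.insertNth_apply_same,
            Fin.insertNth_apply_succAbove]
          exact hT
        · simp only [Fin.insertNth_apply_same, Fin.insertNth_apply_succAbove]
    rw [h3, Finset.card_sigma]
  have h4 : K * (d + 1) * (Finset.univ.filter good).card ≤ (d + 1) * (N ^ d * (N - 1)) := by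
    calc K * (d + 1) * (Finset.univ.filter good).card
        ≤ K * (d + 1) * ∑ k : Fin (d + 1), (Finset.univ.filter (gk k)).card :=
          Nat.mul_le_mul_left _ h1
      _ = ∑ _k : Fin (d + 1), ∑ T : Fin d → ∀ j, I j,
            K * (d + 1) * c (mp fun i => cv a (T i)) := by
          rw [Finset.mul_sum]
          refine Finset.sum_congr rfl fun k _ => ?_
          rw [h2 k, Finset.mul_sum]
      _ ≤ ∑ _k : Fin (d + 1), ∑ _T : Fin d → ∀ j, I j, (N - 1) :=
          Finset.sum_le_sum fun k _ => Finset.sum_le_sum fun T _ => hc _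
      _ = (d + 1) * (N ^ d * (N - 1)) := by
          rw [Finset.sum_const, Finset.sum_const, Finset.card_univ, Finset.card_univ,
            Fintype.card_fun, Fintype.card_fin, Fintype.card_fin, smul_eq_mul, smul_eq_mul]
  have h5' : (d + 1) * (K * (Finset.univ.filter good).card) ≤ (d + 1) * (N ^ d * (N - 1)) := by
    calc (d + 1) * (K * (Finset.univ.filter good).card)
        = K * (d + 1) * (Finset.univ.filter good).card := by ring
      _ ≤ _ := h4
  have h5 : K * (Finset.univ.filter good).card ≤ N ^ d * (N - 1) :=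
    Nat.le_of_mul_le_mul_left h5' (Nat.succ_pos d)
  have h6 : N ^ (d + 1) ≤ N ^ d * (N - 1) := le_trans hmany h5
  have h7 : N ^ d * (N - 1) < N ^ (d + 1) := by
    rw [pow_succ]
    exact Nat.mul_lt_mul_of_pos_left (by omega) (by positivity)
  omega

end selection

end Pool.Agent.Zk96.HSel
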