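import Pool.Agent.Helper954.Hopf.D1c

/-!
Topological Tverberg type statement for primes from Dold's theorem, and a coloured Tverberg theorem
(rainbow simplices, classes of `2p-1` points) obtained with constraint functions.
-/

set_option autoImplicit false

namespace Pool.Agent.Zk96.HSel

open Set Filter Topology
open scoped BigOperators
open Pool.Agent.Helper954.Hopf.Dold (VV JK sh)
open Pool.Agent.Helper954.Hopf.Dold.D1c (join_cover)

section gap

variable {p : ℕ}

/-- `A` is a set of top values of `φ` separated by a gap. -/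
def Gap (φ : ZMod p → ℝ) (k : ℕ) (A : Finset (ZMod p)) : Prop :=
  A.card = k ∧ ∀ a ∈ A, ∀ b, b ∉ A → φ b < φ a

theorem Gap.unique {φ : ZMod p → ℝ} {k : ℕ} {A B : Finset (ZMod p)} (hA : Gap φ k A)
    (hB : Gap φ k B) : A = B := by
  classical
  by_contra hne
  have h1 : ∃ a ∈ A, a ∉ B := by
    by_contra hcon
    push Not at hcon
    exact hne (Finset.eq_of_subset_of_card_le hcon (by rw [hA.1, hB.1]))
  have h2 : ∃ b ∈ B, b ∉ A := by
    by_contra hcon
    push Not at hcon
    exact hne (Finset.eq_of_subset_of_card_le hcon (by rw [hA.1, hB.1])).symm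
  obtain ⟨a, ha, hab⟩ := h1
  obtain ⟨b, hb, hba⟩ := h2
  have := hA.2 a ha b hba
  have := hB.2 b hb a hab
  linarith

theorem Gap.shift {φ ψ : ZMod p → ℝ} {k : ℕ} {A : Finset (ZMod p)} (hA : Gap φ k A)
    (h : ∀ l, ψ l = φ (l - 1)) : Gap ψ k (A.map (Equiv.addRight (1 : ZMod p)).toEmbedding) := by
  refine ⟨by rw [Finset.card_map, hA.1], ?_⟩
  intro a ha b hb
  rw [Finset.mem_map] at ha
  obtain ⟨a', ha', rfl⟩ := ha
  rw [h, h]
  have e1 : (Equiv.addRight (1 : ZMod p)).toEmbedding a' - 1 = a' := by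
    show a' + 1 - 1 = a'
    ring
  rw [e1]
  refine hA.2 a' ha' _ fun hmem => hb ?_
  rw [Finset.mem_map]
  exact ⟨b - 1, hmem, by show b - 1 + 1 = b; ring⟩

end gap

/-- A family of equivariant continuous functions on the join of `M` copies of `ZMod p`. -/
theorem exists_const (p : ℕ) [Fact p.Prime] (M : ℕ) {T : Type} [Fintype T]
    (hT : Fintype.card T * (p - 1) < M) (Φ : T → VV p M → ZMod p → ℝ)
    (hc : ∀ t l, Continuous fun x => Φ t x l)
    (he : ∀ t x l, Φ t (sh x) l = Φ t x (l - 1)) :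
    ∃ x ∈ JK p M, ∀ t l l', Φ t x l = Φ t x l' := by
  classical
  have hpp : p.Prime := Fact.out
  by_contra hcon
  push Not at hcon
  let O : T × Fin (p - 1) → Set (VV p M) := fun q => {x | ∃ A, Gap (Φ q.1 x) (q.2 + 1) A}
  let lab : T × Fin (p - 1) → VV p M → ZMod p := fun q x =>
    if h : ∃ A, Gap (Φ q.1 x) (q.2 + 1) A then
      (((q.2 : ℕ) + 1 : ℕ) : ZMod p)⁻¹ * ∑ a ∈ h.choose, a else 0
  have hlabA : ∀ q x A, Gap (Φ q.1 x) (q.2 + 1) A →
      lab q x = (((q.2 : ℕ) + 1 : ℕ) : ZMod p)⁻¹ * ∑ a ∈ A, a := by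
    intro q x A hA
    have h : ∃ A, Gap (Φ q.1 x) (q.2 + 1) A := ⟨A, hA⟩
    show (if h : ∃ A, Gap (Φ q.1 x) (q.2 + 1) A then _ else _) = _
    rw [dif_pos h, hA.unique h.choose_spec]
  have hopen : ∀ (q : T × Fin (p - 1)) (A : Finset (ZMod p)) (x : VV p M),
      Gap (Φ q.1 x) (q.2 + 1) A → ∀ᶠ y in 𝓝 x, Gap (Φ q.1 y) (q.2 + 1) A := by
    intro q A x hA
    have h1 : ∀ a ∈ A, ∀ b ∈ Aᶜ, ∀ᶠ y in 𝓝 x, Φ q.1 y b < Φ q.1 y a := by
      intro a ha b hb
      rw [Finset.mem_compl] at hb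
      exact ((hc q.1 b).tendsto x).eventually_lt ((hc q.1 a).tendsto x) (hA.2 a ha b hb)
    have h2 : ∀ᶠ y in 𝓝 x, ∀ a ∈ A, ∀ b ∈ Aᶜ, Φ q.1 y b < Φ q.1 y a := by
      rw [Finset.eventually_all]
      intro a ha
      rw [Finset.eventually_all]
      intro b hb
      exact h1 a ha b hb
    filter_upwards [h2] with y hy
    exact ⟨hA.1, fun a ha b hb => hy a ha b (Finset.mem_compl.mpr hb)⟩
  obtain ⟨x, hx, hxO⟩ := join_cover p M (J := T × Fin (p - 1))
    (by rw [Fintype.card_prod, Fintype.card_fin]; exact hT) O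
    (by
      intro q
      rw [isOpen_iff_mem_nhds]
      rintro x ⟨A, hA⟩
      filter_upwards [hopen q A x hA] with y hy
      exact ⟨A, hy⟩)
    lab
    (by
      rintro q x ⟨A, hA⟩
      filter_upwards [hopen q A x hA] with y hy
      rw [hlabA q y A hy, hlabA q x A hA])
    (by
      rintro q x ⟨A, hA⟩
      exact ⟨_, hA.shift (he q.1 x)⟩)
    (by
      rintro q x ⟨A, hA⟩
      rw [hlabA q x A hA, hlabA q (sh x) _ (hA.shift (he q.1 x)), Finset.sum_map]
      have h1 : ∑ a ∈ A, (Equiv.addRight (1 : ZMod p)).toEmbedding a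
          = ∑ a ∈ A, a + (((q.2 : ℕ) + 1 : ℕ) : ZMod p) := by
        show ∑ a ∈ A, (a + 1) = _
        rw [Finset.sum_add_distrib, Finset.sum_const, hA.1, nsmul_eq_mul, mul_one]
      have h2 : (((q.2 : ℕ) + 1 : ℕ) : ZMod p) ≠ 0 := by
        intro h
        rw [ZMod.natCast_eq_zero_iff] at h
        have := Nat.le_of_dvd (by omega) h
        have := q.2.2
        omega
      rw [h1, mul_add, inv_mul_cancel₀ h2])
  obtain ⟨t, l, l', hll⟩ := hcon x hx
  -- top values
  obtain ⟨m, -, hm⟩ := Finset.exists_max_image (Finset.univ : Finset (ZMod p)) (Φ t x)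
    Finset.univ_nonempty
  let A : Finset (ZMod p) := Finset.univ.filter fun a => Φ t x a = Φ t x m
  have hA1 : A.card ≠ 0 := by
    rw [Finset.card_ne_zero]
    exact ⟨m, by simp [A]⟩
  have hA2 : A.card < p := by
    have h1 : A ≠ Finset.univ := by
      intro h
      have h1 : l ∈ A := by rw [h]; exact Finset.mem_univ _
      have h2 : l' ∈ A := by rw [h]; exact Finset.mem_univ _
      simp only [A, Finset.mem_filter, Finset.mem_univ, true_and] at h1 h2
      exact hll (h1.trans h2.symm)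
    have h2 := Finset.card_lt_card ((Finset.ssubset_univ_iff).mpr h1)
    rwa [Finset.card_univ, ZMod.card] at h2
  refine hxO (t, ⟨A.card - 1, by omega⟩) ⟨A, ?_, ?_⟩
  · show A.card = A.card - 1 + 1
    omega
  · intro a ha b hb
    simp only [A, Finset.mem_filter, Finset.mem_univ, true_and] at ha hb
    rw [ha]
    exact lt_of_le_of_ne (hm b (Finset.mem_univ _)) hb

end Pool.Agent.Zk96.HSel
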